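import Mathlib

/-! Normalised Hadamard matrices of orders `2 ^ a * 12 ^ b`, and a net with four classes. -/

set_option autoImplicit false

namespace Pool.Agent.P.MP_c2263a_gt.Fix

open Finset

/-- a Hadamard matrix whose column `o` consists of ones -/
structure Had {T : Type} [Fintype T] [DecidableEq T] (H : T → T → ℝ) (o : T) : Prop where
  sq : ∀ i x, H i x ^ 2 = 1
  one : ∀ i, H i o = 1
  orth : ∀ i j, ∑ x, H i x * H j x = if i = j then (Fintype.card T : ℝ) else 0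

theorem Had.prod {T T' : Type} [Fintype T] [DecidableEq T] [Fintype T'] [DecidableEq T']
    {H : T → T → ℝ} {o : T} {H' : T' → T' → ℝ} {o' : T'} (h : Had H o) (h' : Had H' o') :
    Had (fun i x : T × T' => H i.1 x.1 * H' i.2 x.2) (o, o') where
  sq i x := by rw [mul_pow, h.sq, h'.sq, one_mul]
  one i := by rw [h.one, h'.one, one_mul]
  orth i j := by
    rw [Fintype.sum_prod_type, sum_congr rfl fun x _ => sum_congr rfl fun y _ =>
      mul_mul_mul_comm _ _ _ _]
    dsimp only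
    rw [← sum_mul_sum, h.orth, h'.orth, Fintype.card_prod]
    simp only [Prod.ext_iff, ite_and]
    split_ifs <;> simp

/-- there is a Hadamard matrix of order `N` -/
def HadN (N : ℕ) : Prop := ∃ (T : Type) (_ : Fintype T) (_ : DecidableEq T) (H : T → T → ℝ) (o : T),
  Had H o ∧ Fintype.card T = N

theorem HadN.mul {N N' : ℕ} (h : HadN N) (h' : HadN N') : HadN (N * N') := by
  obtain ⟨T, _, _, H, o, h1, rfl⟩ := h
  obtain ⟨T', _, _, H', o', h2, rfl⟩ := h'
  exact ⟨T × T', inferInstance, inferInstance, _, _, h1.prod h2, Fintype.card_prod _ _⟩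

theorem hadN_of {n : ℕ} (H : Fin (n + 1) → Fin (n + 1) → ℤ) (h1 : ∀ i x, H i x ^ 2 = 1)
    (h2 : ∀ i, H i 0 = 1) (h3 : ∀ i j, ∑ x, H i x * H j x = if i = j then (n + 1 : ℤ) else 0) :
    HadN (n + 1) :=
  ⟨Fin (n + 1), inferInstance, inferInstance, fun i x => H i x, 0,
    ⟨fun i x => by exact_mod_cast h1 i x, fun i => by exact_mod_cast h2 i, fun i j => by
      rw [Fintype.card_fin]
      exact_mod_cast h3 i j⟩, Fintype.card_fin _⟩

/-- the Paley matrix of order twelve -/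
def h12 : Fin 12 → Fin 12 → ℤ :=
  ![![1, 1, 1, 1, 1, 1, 1, 1, 1, 1, 1, 1],
    ![1, -1, 1, -1, 1, 1, 1, -1, -1, -1, 1, -1],
    ![1, -1, -1, 1, -1, 1, 1, 1, -1, -1, -1, 1],
    ![1, 1, -1, -1, 1, -1, 1, 1, 1, -1, -1, -1],
    ![1, -1, 1, -1, -1, 1, -1, 1, 1, 1, -1, -1],
    ![1, -1, -1, 1, -1, -1, 1, -1, 1, 1, 1, -1],
    ![1, -1, -1, -1, 1, -1, -1, 1, -1, 1, 1, 1],
    ![1, 1, -1, -1, -1, 1, -1, -1, 1, -1, 1, 1],
    ![1, 1, 1, -1, -1, -1, 1, -1, -1, 1, -1, 1],
    ![1, 1, 1, 1, -1, -1, -1, 1, -1, -1, 1, -1],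
    ![1, -1, 1, 1, 1, -1, -1, -1, 1, -1, -1, 1],
    ![1, 1, -1, 1, 1, 1, -1, -1, -1, 1, -1, -1]]

theorem had1 : HadN 1 := hadN_of ![![1]] (by decide) (by decide) (by decide)

theorem had2 : HadN 2 := hadN_of ![![1, 1], ![1, -1]] (by decide) (by decide) (by decide)

theorem had12 : HadN 12 :=
  hadN_of h12 (by decide +kernel) (by decide +kernel) (by decide +kernel)

theorem HadN.pow {N : ℕ} (h : HadN N) (a : ℕ) : HadN (N ^ a) := by
  induction a with
  | zero => exact had1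
  | succ a ih => exact ih.mul h

theorem irr : Irrational (Real.log 2 / Real.log 12) := by
  have l2 : 0 < Real.log 2 := Real.log_pos one_lt_two
  have l12 : 0 < Real.log 12 := Real.log_pos (by norm_num)
  rintro ⟨r, hr⟩
  have r0 : 0 < r := by
    have : (0 : ℝ) < r := hr ▸ div_pos l2 l12
    exact_mod_cast this
  obtain ⟨p, hp⟩ := Int.eq_ofNat_of_zero_le (Rat.num_pos.2 r0).le
  have p0 : p ≠ 0 := by
    rintro rfl
    exact (Rat.num_pos.2 r0).ne' hp
  rw [Rat.cast_def, hp, div_eq_div_iff (by exact_mod_cast r.den_nz) l12.ne', Int.cast_natCast,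
    mul_comm (Real.log 2), ← Real.log_pow, ← Real.log_pow] at hr
  have h1 := Real.log_injOn_pos (Set.mem_Ioi.2 (by positivity)) (Set.mem_Ioi.2 (by positivity)) hr
  have h2 : 12 ^ p = 2 ^ r.den := by exact_mod_cast h1
  have h3 : 3 ∣ 2 ^ r.den := h2 ▸ dvd_pow (by norm_num) p0
  exact absurd (Nat.prime_three.dvd_of_dvd_pow h3) (by norm_num)

theorem had_dense {η : ℝ} (hη : 0 < η) :
    ∃ x0 : ℝ, ∀ x, x0 ≤ x → ∃ N : ℕ, HadN N ∧ (N : ℝ) ≤ x ∧ x ≤ (1 + η) * N := by
  have l2 : 0 < Real.log 2 := Real.log_pos one_lt_two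
  have l12 : 0 < Real.log 12 := Real.log_pos (by norm_num)
  obtain ⟨d, hd, d0, d1⟩ := (dense_addSubgroupClosure_pair_iff.2 irr).exists_between
    (Real.log_pos (show 1 < 1 + η by linarith))
  obtain ⟨i, j, rfl⟩ := AddSubgroup.mem_closure_pair.1 hd
  simp only [zsmul_eq_mul] at d0 d1
  set d := i * Real.log 2 + j * Real.log 12 with hdd
  obtain ⟨J, hJ⟩ := exists_nat_gt (Real.log 2 / d)
  set B := J * (|i| * Real.log 2 + |j| * Real.log 12) with hB
  refine ⟨Real.exp B, fun x hx => ?_⟩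
  have x0 : 0 < x := (Real.exp_pos _).trans_le hx
  have y0 : 0 ≤ Real.log x - B := sub_nonneg.2 ((Real.le_log_iff_exp_le x0).2 hx)
  set a := ⌊(Real.log x - B) / Real.log 2⌋₊ with ha
  have a1 : a * Real.log 2 ≤ Real.log x - B := (le_div_iff₀ l2).1 (Nat.floor_le (by positivity))
  have a2 : Real.log x - B < (a + 1) * Real.log 2 := (div_lt_iff₀ l2).1 (Nat.lt_floor_add_one _)
  have r0 : 0 ≤ Real.log x - B - a * Real.log 2 := sub_nonneg.2 a1
  set b := ⌊(Real.log x - B - a * Real.log 2) / d⌋₊ with hb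
  have b1 : b * d ≤ Real.log x - B - a * Real.log 2 :=
    (le_div_iff₀ d0).1 (Nat.floor_le (by positivity))
  have b2 : Real.log x - B - a * Real.log 2 < (b + 1) * d :=
    (div_lt_iff₀ d0).1 (Nat.lt_floor_add_one _)
  have b3 : (b : ℤ) ≤ J := by
    rw [div_lt_iff₀ d0] at hJ
    have : (b : ℝ) < J := lt_of_mul_lt_mul_right (by linarith) d0.le
    exact_mod_cast this.le
  have nn : ∀ i : ℤ, 0 ≤ J * |i| + b * i := fun i => by
    nlinarith [neg_abs_le i, abs_nonneg i, Int.natCast_nonneg b]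
  obtain ⟨p, hp⟩ := Int.eq_ofNat_of_zero_le (nn i)
  obtain ⟨q, hq⟩ := Int.eq_ofNat_of_zero_le (nn j)
  have hp' : (J : ℝ) * |(i : ℝ)| + b * i = p := by exact_mod_cast hp
  have hq' : (J : ℝ) * |(j : ℝ)| + b * j = q := by exact_mod_cast hq
  have N0 : (0 : ℝ) < (2 ^ (a + p) * 12 ^ q : ℕ) := by positivity
  have e : Real.log (2 ^ (a + p) * 12 ^ q : ℕ) = B + a * Real.log 2 + b * d := by
    push_cast
    rw [Real.log_mul (by positivity) (by positivity), Real.log_pow, Real.log_pow, hB, hdd]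
    push_cast
    rw [← hp', ← hq']
    ring
  refine ⟨2 ^ (a + p) * 12 ^ q, (had2.pow _).mul (had12.pow _), ?_, ?_⟩
  · rw [← Real.log_le_log_iff N0 x0, e]
    linarith
  · rw [← Real.log_le_log_iff x0 (by positivity), Real.log_mul (by positivity) N0.ne', e]
    linarith

/-- four parallel classes of lines in a plane over a ring -/
def pt {A : Type} [CommRing A] (g : Fin 4) (l z : A) : A × A :=
  ![(l, z), (z, l), (z, l + z), (z, l - z)] g

theorem pt_inj {A : Type} [CommRing A] (g : Fin 4) (l z l' z' : A) :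
    pt g l z = pt g l' z' ↔ l = l' ∧ z = z' := by
  refine ⟨fun h => ?_, fun h => by rw [h.1, h.2]⟩
  fin_cases g <;> simp only [pt, Fin.reduceFinMk, Matrix.cons_val, Prod.mk.injEq, Fin.zero_eta,
    Fin.mk_one] at h
  · exact h
  · exact h.symm
  · exact ⟨by linear_combination h.2 - h.1, h.1⟩
  · exact ⟨by linear_combination h.2 + h.1, h.1⟩

theorem pt_meet {A : Type} [CommRing A] {u : A} (hu : 2 * u = 1) {g h : Fin 4} (e : g ≠ h)
    (l l' : A) : ∃ x x', ∀ z z', pt g l z = pt h l' z' ↔ z = x ∧ z' = x' := by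
  have lt : ∀ g h : Fin 4, g < h → ∀ l l' : A,
      ∃ x x', ∀ z z', pt g l z = pt h l' z' ↔ z = x ∧ z' = x' := by
    intro g h e l l'
    fin_cases g <;> fin_cases h <;> first
      | exact absurd e (by decide)
      | simp only [pt, Fin.reduceFinMk, Matrix.cons_val, Prod.mk.injEq, Fin.zero_eta, Fin.mk_one]
    · exact ⟨l', l, fun z z' => ⟨fun h => ⟨h.2, h.1.symm⟩, fun h => ⟨h.2.symm, h.1⟩⟩⟩
    · exact ⟨l' + l, l, fun z z' => ⟨fun h => ⟨by rw [h.2, h.1], h.1.symm⟩,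
        fun h => ⟨h.2.symm, by rw [h.1, h.2]⟩⟩⟩
    · exact ⟨l' - l, l, fun z z' => ⟨fun h => ⟨by rw [h.2, h.1], h.1.symm⟩,
        fun h => ⟨h.2.symm, by rw [h.1, h.2]⟩⟩⟩
    · exact ⟨l - l', l - l', fun z z' => ⟨fun h => ⟨by linear_combination h.1 - h.2,
        by linear_combination -h.2⟩, fun h => ⟨by rw [h.1, h.2], by linear_combination -h.2⟩⟩⟩
    · exact ⟨l' - l, l' - l, fun z z' => ⟨fun h => ⟨by linear_combination h.1 + h.2,
        by linear_combination h.2⟩, fun h => ⟨by rw [h.1, h.2], by linear_combination h.2⟩⟩⟩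
    · exact ⟨u * (l' - l), u * (l' - l), fun z z' => ⟨fun h =>
        ⟨by linear_combination u * h.1 + u * h.2 - z * hu,
          by linear_combination u * h.2 - u * h.1 - z' * hu⟩,
        fun h => ⟨by rw [h.1, h.2], by linear_combination h.1 + h.2 + (l' - l) * hu⟩⟩⟩
  rcases lt_or_gt_of_ne e with c | c
  · exact lt g h c l l'
  · obtain ⟨x, x', H⟩ := lt h g c l' l
    exact ⟨x', x, fun z z' => by rw [eq_comm, H, and_comm]⟩

theorem net (X : Type) [Fintype X] {q : ℕ} (hq : Odd q) (hX : Fintype.card X = q + 1) :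
    ∃ (L Ω : Type) (_ : Fintype L) (_ : DecidableEq L) (_ : Fintype Ω) (_ : DecidableEq Ω)
      (ι : Fin 4 → L → X → Ω), Fintype.card L = q ∧ Fintype.card Ω = q * q + 4 * q ∧
      (∀ g l x l' x', ι g l x = ι g l' x' ↔ l = l' ∧ x = x') ∧
      ∀ g h, g ≠ h → ∀ l l', ∃ y y', ∀ x x', ι g l x = ι h l' x' ↔ x = y ∧ x' = y' := by
  have : NeZero q := ⟨hq.pos.ne'⟩
  obtain ⟨r, hr⟩ := hq
  have hu : 2 * ((r : ZMod q) + 1) = 1 := by
    have : ((2 * r + 1 : ℕ) : ZMod q) = 0 := hr ▸ ZMod.natCast_self q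
    push_cast at this
    linear_combination this
  let e : X ≃ Option (ZMod q) := Fintype.equivOfCardEq (by simp [hX])
  refine ⟨ZMod q, (ZMod q × ZMod q) ⊕ (Fin 4 × ZMod q), inferInstance, inferInstance,
    inferInstance, inferInstance,
    fun g l x => (e x).elim (Sum.inr (g, l)) fun z => Sum.inl (pt g l z), ZMod.card q,
    by simp, fun g l x l' x' => ?_, fun g h c l l' => ?_⟩
  · rw [← e.injective.eq_iff]
    dsimp only
    rcases e x with _ | z <;> rcases e x' with _ | z' <;> simp [pt_inj]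
  · obtain ⟨y, y', H⟩ := pt_meet hu c l l'
    refine ⟨e.symm (some y), e.symm (some y'), fun x x' => ?_⟩
    rw [e.eq_symm_apply, e.eq_symm_apply]
    dsimp only
    rcases e x with _ | z <;> rcases e x' with _ | z' <;> simp [H, c]

end Pool.Agent.P.MP_c2263a_gt.Fix
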