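import Pool.Agent.P.MP_c2263a_gt.Fix.Cons
import Pool.Agent.P.MP_c2263a_gt.Fix.Had

/-! The lower bound `(k / (k - 1) - o(1)) m` for 3-planes with cosine `1 / (2 k - 1)`. -/

set_option autoImplicit false

namespace Pool.Agent.P.MP_c2263a_gt.Fix

open Finset Matrix Filter Topology

theorem HadN.on {N : ℕ} (h : HadN N) (T : Type) [Fintype T] [DecidableEq T]
    (hT : Fintype.card T = N) : ∃ (H : T → T → ℝ) (o : T), Had H o := by
  obtain ⟨T', _, _, H, o, h1, h2⟩ := h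
  let e : T ≃ T' := Fintype.equivOfCardEq (hT.trans h2.symm)
  refine ⟨fun i x => H (e i) (e x), e.symm o, fun i x => h1.sq _ _, fun i => ?_, fun i j => ?_⟩
  · rw [e.apply_symm_apply, h1.one]
  · rw [e.sum_comp fun x => H (e i) x * H (e j) x, h1.orth, hT, h2]
    simp only [e.injective.eq_iff]

theorem lower0 {d : ℕ} (hd : 0 < d) : ∃ n : ℕ, 0 < n ∧ ∀ N q m : ℕ, HadN N →
    q + 1 + n = n * (n * N) → 2 * (d + 1) ≤ n * (n * N) →
    4 * ((q * q + 4 * q) * d) + 3 * (4 * (q * (n * (d + 1)))) ≤ m →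
    ∃ U : Fin (4 * (q * (n * (d + 1))) * (n * N)) → Submodule ℝ (EuclideanSpace ℝ (Fin m)),
      (∀ i, Module.finrank ℝ (U i) = 3) ∧ ∀ i j, i ≠ j → ∀ u ∈ U i,
        ‖(U j).starProjection u‖ ^ 2 = (1 / (2 * ((d + 1 : ℕ) : ℝ) - 1)) ^ 2 * ‖u‖ ^ 2 := by
  classical
  obtain ⟨w, hw⟩ := simplex (ZMod (d + 1)) hd (ZMod.card _)
  rw [← Nat.cast_succ] at hw
  have k1 : (1 : ℝ) ≤ (d + 1 : ℕ) := by exact_mod_cast Nat.succ_pos d
  obtain ⟨δ, hδ⟩ : ∃ δ : ℝ, δ = 1 / ((d + 1 : ℕ) : ℝ) ^ 3 / 4 := ⟨_, rfl⟩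
  have δ0 : 0 < δ := by rw [hδ]; positivity
  have δ1 : δ ≤ 1 := by
    rw [hδ, div_div, div_le_one (by positivity)]
    nlinarith [one_le_pow₀ (n := 3) k1]
  obtain ⟨t, ht⟩ := ((tendsto_pow_atTop_nhds_zero_of_lt_one (r := (4 - δ) / 4) (by linarith)
    (by linarith)).eventually (gt_mem_nhds (show (0 : ℝ) < 1 / (4 * (d + 1 : ℕ)) by
      positivity))).exists_forall_of_atTop
  obtain ⟨Λ, _, γ, hΛ, hγ⟩ := pattern hw (t + 1)
  refine ⟨2 ^ (t + 1), by positivity, fun N q m hN hq hb hm => ?_⟩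
  obtain ⟨H2, o2, hH2⟩ := (had2.pow (t + 1)).on Λ hΛ
  have c1 : Fintype.card (Λ × Fin N) = 2 ^ (t + 1) * N := by simp [hΛ]
  obtain ⟨H1, o, hH1⟩ := ((had2.pow (t + 1)).mul hN).on (Λ × Fin N) c1
  have c2 : Fintype.card ({x // x ≠ o} × Λ) = q + 1 := by
    rw [Fintype.card_prod, Fintype.card_subtype_compl, c1, Fintype.card_unique, hΛ, Nat.sub_mul]
    rw [mul_comm] at hq
    omega
  have c3 : Odd q := by
    rw [pow_succ', mul_assoc] at hq
    exact Nat.odd_iff.2 (by omega)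
  obtain ⟨L, Ω, _, _, _, _, ι, hL, hΩ, h1, h2⟩ := net _ c3 c2
  have := build (Nat.succ_le_succ hd) hw h1 h2 hγ (pow_nonneg (by rw [← hδ]; linarith) _) (by
      have := ht (t + 1) (Nat.le_succ t)
      rw [div_pow, div_lt_div_iff₀ (by positivity) (by positivity)] at this
      rw [hΛ, ← hδ, Nat.cast_pow, ← pow_mul, mul_comm (t + 1), pow_mul]
      norm_num at this ⊢
      linarith) hH1 hH2 (by rw [hΛ, Fintype.card_fin]; exact_mod_cast hb)
    (m := m) (by simpa [hΩ, hL, hΛ] using hm)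
  rwa [show Fintype.card ((Fin 4 × L × Λ × ZMod (d + 1)) × (Λ × Fin N)) =
    4 * (q * (2 ^ (t + 1) * (d + 1))) * (2 ^ (t + 1) * N) by simp [hL, hΛ]] at this

theorem lower {d : ℕ} (hd : 0 < d) {η : ℝ} (hη : 0 < η) : ∃ m0 : ℕ, ∀ m, m0 ≤ m →
    ∃ (v : ℕ) (U : Fin v → Submodule ℝ (EuclideanSpace ℝ (Fin m))),
      ((∀ i, Module.finrank ℝ (U i) = 3) ∧ ∀ i j, i ≠ j → ∀ u ∈ U i,
        ‖(U j).starProjection u‖ ^ 2 = (1 / (2 * ((d + 1 : ℕ) : ℝ) - 1)) ^ 2 * ‖u‖ ^ 2) ∧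
      (d + 1) / d * (m : ℝ) ≤ (1 + η) ^ 4 * v := by
  obtain ⟨n, n0, hn⟩ := lower0 hd
  obtain ⟨x0, hx⟩ := had_dense hη
  have d0 : (0 : ℝ) < d := by exact_mod_cast hd
  have n1 : (0 : ℝ) < n := by exact_mod_cast n0
  have lim : Tendsto (fun m : ℕ => √((m : ℝ) / (4 * d * (1 + η)))) atTop atTop :=
    Real.tendsto_sqrt_atTop.comp (tendsto_natCast_atTop_atTop.atTop_div_const (by positivity))
  obtain ⟨m0, hm0⟩ := eventually_atTop.1 ((((lim.eventually_ge_atTop (x0 * (n * n))).and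
    (lim.eventually_ge_atTop ((16 * d + 12 * n * (d + 1)) / (4 * d * η)))).and
    (lim.eventually_ge_atTop ((1 + η) ^ 2 * (n + 1) / η))).and
    (lim.eventually_ge_atTop ((1 + η) * (2 * (d + 1) + (n + 1)))))
  refine ⟨m0, fun m hm => ?_⟩
  obtain ⟨⟨⟨a1, a2⟩, a3⟩, a4⟩ := hm0 m hm
  have s2 : √((m : ℝ) / (4 * d * (1 + η))) ^ 2 * (4 * d * (1 + η)) = m := by
    rw [Real.sq_sqrt (by positivity), div_mul_cancel₀ _ (by positivity)]
  have s0 := Real.sqrt_nonneg ((m : ℝ) / (4 * d * (1 + η)))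
  generalize √((m : ℝ) / (4 * d * (1 + η))) = s at a1 a2 a3 a4 s2 s0
  obtain ⟨N, hN, b1, b2⟩ := hx (s / (n * n)) (by rwa [le_div_iff₀ (by positivity)])
  rw [le_div_iff₀ (by positivity)] at b1
  rw [div_le_iff₀ (by positivity)] at a2 a3 b2
  have b3 : (2 * (d + 1) + (n + 1) : ℝ) ≤ n * (n * N) :=
    le_of_mul_le_mul_left (a := 1 + η) (by linarith) (by positivity)
  have b4 : 2 * (d + 1) + (n + 1) ≤ n * (n * N) := by exact_mod_cast b3
  obtain ⟨q, hq⟩ : ∃ q, q + 1 + n = n * (n * N) := ⟨n * (n * N) - (n + 1), by omega⟩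
  have b5 : (q : ℝ) + 1 + n = n * (n * N) := by exact_mod_cast hq
  have q0 : (0 : ℝ) ≤ q := Nat.cast_nonneg q
  have q1 : (q : ℝ) ≤ s := by linarith
  obtain ⟨U, hU⟩ := hn N q m hN hq (by omega) (by
    have e1 := mul_le_mul_of_nonneg_left (mul_self_le_mul_self q0 q1) d0.le
    have e2 := mul_le_mul a2 q1 q0 (by positivity)
    have : (4 * ((q * q + 4 * q) * d) + 3 * (4 * (q * (n * (d + 1)))) : ℝ) ≤ m := by linarith
    exact_mod_cast this)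
  refine ⟨_, U, hU, ?_⟩
  push_cast
  obtain ⟨z, hz⟩ : ∃ z : ℝ, z = n * (n * N) := ⟨_, rfl⟩
  have z1 : s ≤ (1 + η) * z := by rw [hz]; linarith
  have z2 : z ≤ (1 + η) * q := by
    have : (1 + η) * ((1 + η) * (n + 1)) ≤ (1 + η) * (η * z) := by nlinarith
    have := le_of_mul_le_mul_left this (by positivity)
    rw [← hz] at b5
    nlinarith
  have z0 : 0 ≤ z := by rw [hz]; positivity
  have z3 : s * s ≤ (1 + η) * z * ((1 + η) * ((1 + η) * q)) :=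
    mul_le_mul z1 (z1.trans (mul_le_mul_of_nonneg_left z2 (by positivity))) s0 (by positivity)
  have z4 := mul_le_mul_of_nonneg_left z3 (show 0 ≤ 4 * (d + 1 : ℝ) * (1 + η) by positivity)
  rw [← s2, div_mul_eq_mul_div, div_le_iff₀ d0]
  rw [hz] at z4
  nlinarith [mul_le_mul_of_nonneg_right z4 d0.le]

end Pool.Agent.P.MP_c2263a_gt.Fix
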