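import Pool.Agent.P.MP_c2263a_gt.Frames

/-! Assembling equi-isoclinic 3-planes from four classes of vectors and quaternion units. -/

set_option autoImplicit false

namespace Pool.Agent.P.MP_c2263a_gt.Fix

open Finset Matrix

/-- products of a quaternion unit and an imaginary quaternion unit -/
def qv : Fin 4 → Fin 3 → Fin 4 → ℤ :=
  ![![![0, 1, 0, 0], ![0, 0, 1, 0], ![0, 0, 0, 1]],
    ![![-1, 0, 0, 0], ![0, 0, 0, 1], ![0, 0, -1, 0]],
    ![![0, 0, 0, -1], ![-1, 0, 0, 0], ![0, 1, 0, 0]],
    ![![0, 0, 1, 0], ![0, -1, 0, 0], ![-1, 0, 0, 0]]]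

/-- the axis attached to two classes -/
def ax : Fin 4 → Fin 4 → Fin 3 := ![![0, 0, 1, 2], ![0, 0, 2, 1], ![1, 2, 0, 0], ![2, 1, 0, 0]]

/-- the side of a class -/
def sd : Fin 3 → Fin 4 → ℤ := ![![1, 1, -1, -1], ![1, -1, 1, -1], ![1, -1, -1, 1]]

/-- inner products of the vectors `qv` -/
def om (g : Fin 4) (a : Fin 3) (h : Fin 4) (b : Fin 3) : ℤ := ∑ c, qv g a c * qv h b c

theorem om_self : ∀ g a b, om g a g b = if a = b then 1 else 0 := by decide

theorem om_skew : ∀ g h, g ≠ h → ∀ a b, om g a h b = -om g b h a := by decide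

theorem om_ax : ∀ g h, g ≠ h → ∀ b, om g (ax g h) h b = 0 := by decide

theorem om_sq : ∀ g h, g ≠ h → ∀ a b,
    ∑ e, om g a h e * om g b h e = if a = b ∧ a ≠ ax g h then 1 else 0 := by decide

theorem sd_self : ∀ a g, sd a g * sd a g = 1 := by decide

theorem sd_mul : ∀ a g h, g ≠ h → sd a g * sd a h = if a = ax g h then 1 else -1 := by decide

theorem rot {g h : Fin 4} (e : g ≠ h) {σ γ : ℝ} (hs : σ ^ 2 + γ ^ 2 = 1) (a b : Fin 3) :
    ∑ c, (σ * om g a h c + if a = c then (if a = ax g h then 1 else γ) else 0) *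
      (σ * om g b h c + if b = c then (if b = ax g h then 1 else γ) else 0) =
      if a = b then 1 else 0 := by
  have h1 : ∑ c, (om g a h c : ℝ) * om g b h c = if a = b ∧ a ≠ ax g h then 1 else 0 := by
    exact_mod_cast om_sq g h e a b
  have h2 : (om g a h b : ℝ) = -om g b h a := by exact_mod_cast om_skew g h e a b
  have h3 : ∀ b, (om g (ax g h) h b : ℝ) = 0 := fun b => by exact_mod_cast om_ax g h e b
  have h4 : ∀ c, (σ * om g a h c + if a = c then (if a = ax g h then 1 else γ) else 0) *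
      (σ * om g b h c + if b = c then (if b = ax g h then 1 else γ) else 0) =
      σ ^ 2 * (om g a h c * om g b h c) +
      (if b = c then σ * om g a h c * (if b = ax g h then 1 else γ) else 0) +
      (if a = c then σ * om g b h c * (if a = ax g h then 1 else γ) +
        (if a = b then (if a = ax g h then 1 else γ) ^ 2 else 0) else 0) := fun c => by
    by_cases e1 : a = c <;> by_cases e2 : b = c
    · subst e1 e2
      simp only [if_true]
      ring
    · subst e1
      simp only [if_true, if_neg e2, if_neg (Ne.symm e2)]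
      ring
    · subst e2
      simp only [if_true, if_neg e1]
      ring
    · simp only [if_neg e1, if_neg e2]
      ring
  simp only [h4, sum_add_distrib, ← mul_sum, h1, sum_ite_eq, mem_univ, if_true]
  by_cases e1 : a = ax g h <;> by_cases e2 : b = ax g h
  · simp [e1, e2, h3]
  · have : a ≠ b := fun c => e2 (c ▸ e1)
    have h5 := h3 b
    rw [← e1] at h5
    rw [h5] at h2
    simp only [this, false_and, if_false, h5, neg_eq_zero.1 h2.symm]
    ring
  · have : a ≠ b := fun c => e1 (c ▸ e2)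
    have h5 := h3 a
    rw [← e2] at h5
    simp only [this, false_and, if_false, h2, h5]
    ring
  · simp only [if_false, h2, ne_eq, e1, e2, not_false_iff, and_true]
    split_ifs
    · linarith
    · ring

theorem embed {P T : Type} [Fintype T] (f : P → T → ℝ) {m : ℕ} (hm : Fintype.card T ≤ m) :
    ∃ x : P → EuclideanSpace ℝ (Fin m), ∀ p q, inner ℝ (x p) (x q) = ∑ t, f p t * f q t :=
  ⟨fun p => pad m fun i => f p ((Fintype.equivFin T).symm i), fun p q => by
    rw [inner_pad hm]
    exact (Fintype.equivFin T).symm.sum_comp fun t => f p t * f q t⟩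

theorem asm {P Dm E : Type} [Fintype P] [Fintype Dm] [Fintype E] {α : ℝ} (h0 : 0 < α) (h1 : α < 1)
    (cl : P → Fin 4) (y : P → Dm → ℝ) (r : Fin 3 → P → E → ℝ)
    (a1 : ∀ a p, y p ⬝ᵥ y p + r a p ⬝ᵥ r a p = 1 / α)
    (a2 : ∀ p p', p ≠ p' → cl p = cl p' →
      ∃ s : ℝ, s ^ 2 = 1 ∧ ∀ a, y p ⬝ᵥ y p' + r a p ⬝ᵥ r a p' = s)
    (a3 : ∀ p p', cl p ≠ cl p' → ∃ γ : ℝ, (y p ⬝ᵥ y p') ^ 2 + γ ^ 2 = 1 ∧
      ∀ a, r a p ⬝ᵥ r a p' = if a = ax (cl p) (cl p') then 1 else γ)
    {m : ℕ} (hm : 4 * Fintype.card Dm + 3 * Fintype.card E ≤ m) :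
    ∃ U : Fin (Fintype.card P) → Submodule ℝ (EuclideanSpace ℝ (Fin m)),
      (∀ i, Module.finrank ℝ (U i) = 3) ∧
      ∀ i j, i ≠ j → ∀ u ∈ U i, ‖(U j).starProjection u‖ ^ 2 = α ^ 2 * ‖u‖ ^ 2 := by
  obtain ⟨σ, hσ⟩ : ∃ σ : ℝ, σ * σ = α := ⟨√α, Real.mul_self_sqrt h0.le⟩
  obtain ⟨x, hx⟩ := embed (P := P × Fin 3) (T := (Dm × Fin 4) ⊕ (Fin 3 × E)) (m := m)
    (fun p => Sum.elim (fun t => σ * (y p.1 t.1 * qv (cl p.1) p.2 t.2))
      fun t => if p.2 = t.1 then σ * r p.2 p.1 t.2 else 0)
    (by simp only [Fintype.card_sum, Fintype.card_prod, Fintype.card_fin]; omega)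
  have key : ∀ p a p' b, inner ℝ (x (p, a)) (x (p', b)) =
      α * (y p ⬝ᵥ y p' * om (cl p) a (cl p') b + if a = b then r a p ⬝ᵥ r a p' else 0) := by
    intro p a p' b
    rw [hx, Fintype.sum_sum_type, Fintype.sum_prod_type, Fintype.sum_prod_type, mul_add]
    simp only [Sum.elim_inl, Sum.elim_inr]
    congr 1
    · rw [om, dotProduct]
      push_cast
      rw [sum_mul_sum, mul_sum]
      refine sum_congr rfl fun d _ => ?_
      rw [mul_sum]
      exact sum_congr rfl fun c _ => by rw [← hσ]; ring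
    · rw [sum_eq_single a (fun c _ hc => by simp [hc.symm]) (by simp)]
      by_cases e : a = b
      · subst e
        simp only [if_true, dotProduct, mul_sum]
        exact sum_congr rfl fun c _ => by rw [← hσ]; ring
      · simp [e, Ne.symm e]
  have os : ∀ g a b, (om g a g b : ℝ) = if a = b then 1 else 0 := fun g a b => by
    exact_mod_cast om_self g a b
  obtain ⟨U, -, hU⟩ := of_frames (fun i a => x ((Fintype.equivFin P).symm i, a)) (α ^ 2)
    (by nlinarith) (fun i a b => by
      rw [key, os]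
      split_ifs
      · rw [mul_one, a1, mul_one_div_cancel h0.ne']
      · ring) fun i j e a b => by
      have e' := (Fintype.equivFin P).symm.injective.ne e
      generalize (Fintype.equivFin P).symm i = p at e'
      generalize (Fintype.equivFin P).symm j = p' at e'
      simp only [key]
      by_cases c : cl p = cl p'
      · obtain ⟨s, s1, s2⟩ := a2 p p' e' c
        have : ∀ a e, y p ⬝ᵥ y p' * om (cl p) a (cl p') e + (if a = e then r a p ⬝ᵥ r a p' else 0) =
            if a = e then s else 0 := fun a e => by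
          rw [← c, os]
          split_ifs
          · rw [mul_one, s2]
          · ring
        simp only [this, mul_ite, ite_mul, mul_zero, zero_mul, sum_ite_eq, mem_univ, if_true]
        by_cases e2 : a = b
        · rw [if_pos e2, if_pos e2]
          linear_combination α ^ 2 * s1
        · rw [if_neg e2, if_neg e2]
      · obtain ⟨γ, s1, s2⟩ := a3 p p' c
        simp only [s2]
        rw [sum_congr rfl fun e _ => mul_mul_mul_comm _ _ _ _, ← mul_sum, rot c s1]
        split_ifs <;> ring
  exact ⟨U, hU⟩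

end Pool.Agent.P.MP_c2263a_gt.Fix
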