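import Mathlib

/-! A counting lemma: approximate Perron vectors live on clusters of at least `k` points. -/

set_option autoImplicit false

namespace Pool.Agent.P.MP_c2263a_gt.Fix

open Finset
open scoped Classical

theorem cluster {ι : Type} [Fintype ι] (w : ι → ℝ) (hv : ι → Prop) (adj : ι → ι → Prop)
    (d : ι → ι → ℝ) {ρ c σ τ ε B : ℝ} {k R : ℕ} (hk : 2 ≤ k) (hR : 0 < R) (hc : 0 ≤ c)
    (hσ : 0 ≤ σ) (hτ : 0 ≤ τ) (hε : 0 ≤ ε) (hB : 0 ≤ B) (hρ : 2 * (c * (k - 2)) < ρ)
    (w0 : ∀ i, 0 ≤ w i) (w1 : ∀ i, w i ≤ 1) (light : ∀ i, ¬ hv i → w i ≤ τ)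
    (d0 : ∀ i, d i i = 0) (dtri : ∀ i j l, d i l ≤ d i j + d j l)
    (asym : ∀ i j, adj i j → adj j i) (airr : ∀ i, ¬ adj i i) (ahv : ∀ i j, adj i j → hv j)
    (acl : ∀ i j, adj i j → d i j ≤ ε)
    (ball : ∀ j, hv j → ∑ i with hv i ∧ d i j ≤ (R + 1) * ε, w i ≤ B)
    (eig : ∀ i, hv i → ρ * w i ≤ ∑ j with adj i j, c * (w i + w j) + σ) :
    ∑ i, w i ≤ (τ + (c * (k - 2) / R + σ) / (ρ - 2 * (c * (k - 2))) + B / k) * Fintype.card ι := by
  set v : ℝ := (Fintype.card ι : ℝ) with hvv
  have hv0 : 0 ≤ v := Nat.cast_nonneg _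
  have hk2 : (0 : ℝ) ≤ k - 2 := by
    have : (2 : ℝ) ≤ k := by exact_mod_cast hk
    linarith
  have hk0 : (0 : ℝ) < k := by linarith
  have hR0 : (0 : ℝ) < R := by exact_mod_cast hR
  set U : ℕ → Finset ι := fun r =>
    univ.filter fun i => hv i ∧ (univ.filter fun j => hv j ∧ d i j ≤ r * ε).card < k with hU
  set a : ℕ → ℝ := fun r => ∑ i ∈ U r, w i with ha
  have a0 : ∀ r, 0 ≤ a r := fun r => sum_nonneg fun i _ => w0 i
  have sv : ∀ s : Finset ι, (s.card : ℝ) ≤ v := fun s => by
    rw [hvv]
    exact_mod_cast card_le_univ s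
  have a1 : ∀ r, a r ≤ v := fun r => by
    refine (sum_le_sum fun i _ => w1 i).trans ?_
    rw [sum_const, nsmul_eq_mul, mul_one]
    exact sv _
  have deg : ∀ r, 1 ≤ r → ∀ i ∈ U r, ((univ.filter fun j => adj i j).card : ℝ) ≤ k - 2 := by
    intro r hr i hi
    obtain ⟨h1, h2⟩ := (mem_filter.1 hi).2
    have hr' : ε ≤ r * ε := le_mul_of_one_le_left hε (by exact_mod_cast hr)
    have h3 : insert i (univ.filter fun j => adj i j) ⊆
        univ.filter fun j => hv j ∧ d i j ≤ r * ε := by
      intro j hj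
      rcases mem_insert.1 hj with rfl | hj
      · exact mem_filter.2 ⟨mem_univ _, h1, by rw [d0]; exact hε.trans hr'⟩
      · have := (mem_filter.1 hj).2
        exact mem_filter.2 ⟨mem_univ _, ahv _ _ this, (acl _ _ this).trans hr'⟩
    have h4 := card_le_card h3
    rw [card_insert_of_notMem (fun h => airr i (mem_filter.1 h).2)] at h4
    have h5 : (univ.filter fun j => adj i j).card + 2 ≤ k := Nat.succ_le_of_lt (h4.trans_lt h2)
    have h6 : ((univ.filter fun j => adj i j).card : ℝ) + 2 ≤ k := by exact_mod_cast h5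
    linarith
  have down : ∀ r, ∀ i ∈ U (r + 1), ∀ j, adj i j → j ∈ U r := by
    intro r i hi j hj
    refine mem_filter.2 ⟨mem_univ _, ahv _ _ hj, lt_of_le_of_lt (card_le_card ?_)
      (mem_filter.1 hi).2.2⟩
    intro l hl
    obtain ⟨h1, h2⟩ := (mem_filter.1 hl).2
    refine mem_filter.2 ⟨mem_univ _, h1, ?_⟩
    have := dtri i j l
    have := acl _ _ hj
    push_cast
    linarith
  have step : ∀ r, 1 ≤ r → ρ * a (r + 1) ≤ c * (k - 2) * (a (r + 1) + a r) + σ * v := by
    intro r hr
    have e1 : ∑ i ∈ U (r + 1), ∑ j with adj i j, w i ≤ (k - 2) * a (r + 1) := by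
      rw [ha, mul_sum]
      refine sum_le_sum fun i hi => ?_
      rw [sum_const, nsmul_eq_mul]
      exact mul_le_mul_of_nonneg_right (deg _ (by omega) i hi) (w0 i)
    have e2 : ∑ i ∈ U (r + 1), ∑ j with adj i j, w j ≤ (k - 2) * a r := by
      calc _ ≤ ∑ i, ∑ j ∈ U r, if adj j i then w j else 0 := by
            refine (sum_le_sum fun i hi => ?_).trans (sum_le_sum_of_subset_of_nonneg
              (subset_univ _) fun i _ _ => sum_nonneg fun j _ => by
                split_ifs
                · exact w0 j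
                · exact le_rfl)
            rw [← sum_filter]
            refine sum_le_sum_of_subset_of_nonneg (fun j hj => ?_) fun j _ _ => w0 j
            have := (mem_filter.1 hj).2
            exact mem_filter.2 ⟨down r i hi j this, asym _ _ this⟩
        _ = ∑ j ∈ U r, ((univ.filter fun i => adj j i).card : ℝ) * w j := by
            rw [sum_comm]
            refine sum_congr rfl fun j _ => ?_
            rw [← sum_filter, sum_const, nsmul_eq_mul]
        _ ≤ _ := by
            rw [ha, mul_sum]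
            exact sum_le_sum fun j hj => mul_le_mul_of_nonneg_right (deg r hr j hj) (w0 j)
    have e3 : ρ * a (r + 1) ≤ ∑ i ∈ U (r + 1), (c * (∑ j with adj i j, w i +
        ∑ j with adj i j, w j) + σ) := by
      rw [ha, mul_sum]
      refine sum_le_sum fun i hi => (eig i (mem_filter.1 hi).2.1).trans_eq ?_
      rw [← sum_add_distrib, mul_sum]
    rw [sum_add_distrib, ← mul_sum, sum_add_distrib, sum_const, nsmul_eq_mul] at e3
    have e4 := mul_le_mul_of_nonneg_left (add_le_add e1 e2) hc
    have e5 := mul_le_mul_of_nonneg_right (sv (U (r + 1))) hσ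
    linarith
  obtain ⟨r, hr, hr'⟩ : ∃ r ∈ range R, a (r + 1) - a (r + 2) ≤ v / R := by
    refine exists_le_of_sum_le (nonempty_range_iff.2 hR.ne') ?_
    rw [sum_range_sub' (fun r => a (r + 1)), sum_const, card_range, nsmul_eq_mul,
      mul_div_cancel₀ _ hR0.ne']
    linarith [a1 (0 + 1), a0 (R + 1)]
  have hrR : (r + 2 : ℕ) * ε ≤ (R + 1) * ε := by
    refine mul_le_mul_of_nonneg_right ?_ hε
    have := mem_range.1 hr
    exact_mod_cast (by omega : r + 2 ≤ R + 1)
  have b1 : a (r + 2) ≤ (c * (k - 2) / R + σ) / (ρ - 2 * (c * (k - 2))) * v := by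
    have := step (r + 1) (by omega)
    have h2 := mul_le_mul_of_nonneg_left hr' (mul_nonneg hc hk2)
    rw [div_mul_eq_mul_div, le_div_iff₀ (by linarith)]
    have e : (c * (k - 2) / R + σ) * v = c * (k - 2) * (v / R) + σ * v := by ring
    rw [e]
    linarith
  have b2 : k * ∑ i with hv i ∧ i ∉ U (r + 2), w i ≤ B * v := by
    calc _ ≤ ∑ i with hv i, ∑ j with hv j, if d i j ≤ (R + 1) * ε then w i else 0 := by
          rw [mul_sum]
          refine (sum_le_sum fun i hi => ?_).trans (sum_le_sum_of_subset_of_nonneg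
            (fun i hi => mem_filter.2 ⟨mem_univ _, (mem_filter.1 hi).2.1⟩)
            fun i _ _ => sum_nonneg fun j _ => by
              split_ifs
              · exact w0 i
              · exact le_rfl)
          obtain ⟨h1, h2⟩ := (mem_filter.1 hi).2
          rw [← sum_filter, sum_const, nsmul_eq_mul, filter_filter]
          refine mul_le_mul_of_nonneg_right ?_ (w0 i)
          have h3 : k ≤ (univ.filter fun j => hv j ∧ d i j ≤ (r + 2 : ℕ) * ε).card :=
            not_lt.1 fun h => h2 (mem_filter.2 ⟨mem_univ _, h1, h⟩)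
          have h4 : k ≤ (univ.filter fun j => hv j ∧ d i j ≤ (R + 1) * ε).card :=
            h3.trans (card_le_card fun j hj => mem_filter.2
              ⟨mem_univ _, (mem_filter.1 hj).2.1, (mem_filter.1 hj).2.2.trans hrR⟩)
          exact_mod_cast h4
      _ ≤ ∑ j with hv j, B := by
          rw [sum_comm]
          refine sum_le_sum fun j hj => ?_
          rw [← sum_filter, filter_filter]
          exact ball j (mem_filter.1 hj).2
      _ ≤ _ := by
          rw [sum_const, nsmul_eq_mul, mul_comm]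
          exact mul_le_mul_of_nonneg_left (sv _) hB
  have b3 : ∑ i, w i ≤ ∑ i, (τ + (if i ∈ U (r + 2) then w i else 0) +
      if hv i ∧ i ∉ U (r + 2) then w i else 0) := by
    refine sum_le_sum fun i _ => ?_
    have := w0 i
    by_cases h1 : i ∈ U (r + 2)
    · simp only [h1, if_true, not_true, and_false, if_false]
      linarith
    · by_cases h2 : hv i
      · simp only [h1, h2, if_true, not_false_iff, and_self, if_false]
        linarith
      · simp only [h1, h2, false_and, if_false]
        linarith [light i h2]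
  rw [sum_add_distrib, sum_add_distrib, sum_const, card_univ, nsmul_eq_mul, sum_ite_mem,
    univ_inter, ← sum_filter] at b3
  have b4 : ∑ i with hv i ∧ i ∉ U (r + 2), w i ≤ B / k * v := by
    rw [div_mul_eq_mul_div, le_div_iff₀ hk0]
    linarith
  have b5 : ∑ i ∈ U (r + 2), w i = a (r + 2) := rfl
  rw [← hvv] at b3
  linarith

end Pool.Agent.P.MP_c2263a_gt.Fix
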