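import Pool.Agent.P.MP_c2263a_gt.Fix.Walk
import Pool.Agent.P.MP_c2263a_gt.Fix.Cluster

/-! The kernel of an almost entrywise nonpositive semidefinite matrix is small. -/

set_option autoImplicit false

namespace Pool.Agent.P.MP_c2263a_gt.Fix

open Finset Matrix
open scoped Classical

theorem dist_unit {V : Type} [NormedAddCommGroup V] [InnerProductSpace ℝ V] {z z' : V}
    (h : 0 < ‖z‖) (h' : 0 < ‖z'‖) :
    dist (‖z‖⁻¹ • z) (‖z'‖⁻¹ • z') ^ 2 * (‖z‖ * ‖z'‖) = 2 * (‖z‖ * ‖z'‖ - inner ℝ z z') := by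
  rw [dist_eq_norm, norm_sub_sq_real, norm_smul, norm_smul, real_inner_smul_left,
    real_inner_smul_right, norm_inv, norm_inv, norm_norm, norm_norm]
  field_simp
  ring

theorem sf {ι : Type} [Fintype ι] {p : ι → Prop} (h1 h2 : DecidablePred p) (f : ι → ℝ) :
    ∑ i ∈ @filter _ p h1 univ, f i = ∑ i ∈ @filter _ p h2 univ, f i := by
  rw [Subsingleton.elim h1 h2]

theorem params {δ : ℝ} (hδ : 0 < δ) : ∃ t v0 : ℕ, 0 < v0 ∧ 1 / ((t : ℝ) + 1) ≤ δ ∧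
    ∀ v : ℕ, v0 ≤ v → (1 / v : ℝ) * 16 ^ t ≤ δ := by
  obtain ⟨t, ht⟩ := exists_nat_one_div_lt hδ
  obtain ⟨v0, hv0⟩ := exists_nat_gt (16 ^ t / δ)
  have h0 : (0 : ℝ) < v0 := lt_trans (by positivity) hv0
  refine ⟨t, v0, by exact_mod_cast h0, ht.le, fun v hv => ?_⟩
  have h1 : (v0 : ℝ) ≤ v := by exact_mod_cast hv
  rw [div_lt_iff₀ hδ] at hv0
  rw [div_mul_eq_mul_div, one_mul, div_le_iff₀ (h0.trans_le h1)]
  nlinarith

section

variable {ι : Type} [Fintype ι] [DecidableEq ι] {W : Matrix ι ι ℝ}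

/-- the columns of a power of `1 - W` -/
noncomputable def zv (W : Matrix ι ι ℝ) (t : ℕ) (i : ι) : EuclideanSpace ℝ ι :=
  WithLp.toLp 2 (((1 - W) ^ t) *ᵥ Pi.single i 1)

theorem Ok.Fz (h : Ok W) (t : ℕ) (i j : ι) :
    ((1 - W) ^ (2 * t)) i j = inner ℝ (zv W t i) (zv W t j) := by
  have := h.two t (Pi.single j 1) (Pi.single i 1)
  rw [single_dotProduct, one_mul, mulVec_single_one] at this
  rw [zv, zv, EuclideanSpace.inner_toLp_toLp, star_trivial, ← this]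
  exact h.pow_sym _ i j

theorem Ok.Fd (h : Ok W) (t : ℕ) (i : ι) : ((1 - W) ^ (2 * t)) i i = ‖zv W t i‖ ^ 2 := by
  rw [h.Fz, real_inner_self_eq_norm_sq]

theorem ss (i : ι) : (Pi.single i 1 : ι → ℝ) ⬝ᵥ Pi.single i 1 = 1 := by simp

theorem sl (i : ι) : ∑ b, |(Pi.single i 1 : ι → ℝ) b| = 1 := by
  rw [sum_eq_single i] <;> simp +contextual

theorem Ok.F1 (h : Ok W) (t : ℕ) (i : ι) : ‖zv W t i‖ ^ 2 ≤ 1 := by
  have := h.contr t (Pi.single i 1)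
  rw [ss, ← h.two, single_dotProduct, one_mul, mulVec_single_one] at this
  rw [← h.Fd]
  exact this

theorem Ok.z1 (h : Ok W) (t : ℕ) (i : ι) : ‖zv W t i‖ ≤ 1 := by
  nlinarith [norm_nonneg (zv W t i), h.F1 t i]

theorem Ok.Fc (h : Ok W) (t : ℕ) (i j : ι) :
    ((1 - W) ^ (2 * t)) i j ≤ ‖zv W t i‖ * ‖zv W t j‖ := by
  rw [h.Fz]
  exact real_inner_le_norm _ _

theorem Ok.F2 (h : Ok W) (t : ℕ) (j : ι) :
    ∑ i, ((1 - W) ^ (2 * t)) i j ^ 2 ≤ ‖zv W t j‖ ^ 2 := by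
  have h1 := h.contr t (((1 - W) ^ t) *ᵥ Pi.single j 1)
  rw [← h.two t (Pi.single j 1), mulVec_mulVec, ← pow_add, ← two_mul, single_dotProduct, one_mul,
    mulVec_single_one] at h1
  rw [← h.Fd]
  refine le_trans (le_of_eq ?_) h1
  exact sum_congr rfl fun i _ => sq _

theorem Ok.F3 (h : Ok W) (t : ℕ) (j : ι) : ∑ i, |((1 - W) ^ (2 * t)) i j| ≤ 2 ^ (2 * t) := by
  have h1 := h.l1_le (2 * t) (Pi.single j 1)
  rw [show l1 (Pi.single j 1 : ι → ℝ) = 1 from sl j, mul_one, mulVec_single_one] at h1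
  exact h1

theorem p4 (t : ℕ) : (2 : ℝ) ^ (2 * t) * 2 ^ (2 * t) = 16 ^ t := by
  rw [← mul_pow, pow_mul]
  norm_num

theorem Ok.pair (h : Ok W) {E : ι → ι → ℝ} {κ δ : ℝ} {t : ℕ} (κ0 : 0 ≤ κ) (En : ∀ i j, 0 ≤ E i j)
    (hW : ∀ i j, i ≠ j → W i j + E i j ≤ κ) (ht : 1 / ((t : ℝ) + 1) ≤ δ) (hv : κ * 16 ^ t ≤ δ)
    {i j : ι} (hij : i ≠ j) :
    E i j * (‖zv W t i‖ * ‖zv W t j‖ *
      (‖zv W t i‖ * ‖zv W t j‖ - ((1 - W) ^ (2 * t)) i j) ^ 2) ≤ 5 * δ := by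
  set F := (1 - W) ^ (2 * t) with hF
  set y0 : ι → ℝ := ‖zv W t j‖ • Pi.single i 1 - ‖zv W t i‖ • Pi.single j 1 with hy0
  have h3 := h.gain κ0 En hW (F *ᵥ y0) hij
  have h4 := h.defect (2 * t) y0
  have h5 := h.l1_le (2 * t) y0
  rw [← hF] at h4 h5
  have y1 : y0 ⬝ᵥ y0 ≤ 2 := by
    simp only [hy0, sub_dotProduct, dotProduct_sub, smul_dotProduct, dotProduct_smul,
      single_dotProduct, smul_eq_mul, Pi.single_apply, if_true, if_neg hij, if_neg hij.symm]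
    linarith [h.F1 t i, h.F1 t j]
  have y2 : l1 y0 ≤ 2 := by
    unfold l1
    refine (sum_le_sum fun a _ => abs_sub _ _).trans ?_
    simp only [Pi.smul_apply, smul_eq_mul, abs_mul, sum_add_distrib, ← mul_sum, sl, abs_norm]
    linarith [h.z1 t i, h.z1 t j]
  have y3 : ∀ a, (F *ᵥ y0) a = ‖zv W t j‖ * F a i - ‖zv W t i‖ * F a j := fun a => by
    rw [hy0, mulVec_sub, mulVec_smul, mulVec_smul, mulVec_single_one, mulVec_single_one]
    rfl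
  have x0 : 0 ≤ ‖zv W t i‖ * ‖zv W t j‖ - F i j := sub_nonneg.2 (h.Fc t i j)
  set x := ‖zv W t i‖ * ‖zv W t j‖ - F i j with hx
  have y4 : (F *ᵥ y0) i = ‖zv W t i‖ * x := by
    rw [y3, show F i i = _ from h.Fd t i, hx]; ring
  have y5 : (F *ᵥ y0) j = -(‖zv W t j‖ * x) := by
    rw [y3, show F j j = _ from h.Fd t j, show F j i = F i j from h.pow_sym _ _ _, hx]; ring
  rw [y4, y5, abs_neg, abs_of_nonneg (mul_nonneg (norm_nonneg _) x0),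
    abs_of_nonneg (mul_nonneg (norm_nonneg _) x0)] at h3
  have l0 : 0 ≤ l1 (F *ᵥ y0) := sum_nonneg fun a _ => abs_nonneg _
  have q1 : l1 (F *ᵥ y0) ^ 2 ≤ 4 * 16 ^ t := by
    have := pow_le_pow_left₀ l0 (h5.trans (mul_le_mul_of_nonneg_left y2 (by positivity))) 2
    rw [← p4]
    linarith
  have q2 : F *ᵥ y0 ⬝ᵥ W *ᵥ (F *ᵥ y0) ≤ 2 * δ := by
    have a1 := mul_nonneg (Nat.cast_nonneg (α := ℝ) t) (h.psd (F *ᵥ y0))
    rw [div_le_iff₀ (by positivity)] at ht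
    push_cast at h4
    exact le_of_mul_le_mul_left (by linarith) (by positivity : (0 : ℝ) < t + 1)
  have q3 := mul_le_mul_of_nonneg_left q1 κ0
  linarith

theorem Ok.close (h : Ok W) {t : ℕ} {i j : ι} {e s ε : ℝ} (s0 : 0 < s) (ε0 : 0 < ε)
    (hi : s ≤ ‖zv W t i‖) (hj : s ≤ ‖zv W t j‖) (hE : s ^ 2 ≤ e)
    (hp : e * (‖zv W t i‖ * ‖zv W t j‖ *
      (‖zv W t i‖ * ‖zv W t j‖ - ((1 - W) ^ (2 * t)) i j) ^ 2) ≤ ε ^ 4 * s ^ 8 / 4) :
    dist (‖zv W t i‖⁻¹ • zv W t i) (‖zv W t j‖⁻¹ • zv W t j) ≤ ε := by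
  have zi := s0.trans_le hi
  have zj := s0.trans_le hj
  have h1 := dist_unit zi zj
  rw [← h.Fz] at h1
  by_contra hc
  have a2 : s ^ 2 ≤ ‖zv W t i‖ * ‖zv W t j‖ := by
    rw [sq]
    exact mul_le_mul hi hj s0.le zi.le
  have h2 : ε ^ 2 * s ^ 2 / 2 < ‖zv W t i‖ * ‖zv W t j‖ - ((1 - W) ^ (2 * t)) i j := by
    have a1 := pow_lt_pow_left₀ (not_le.1 hc) ε0.le two_ne_zero
    have a3 := mul_lt_mul_of_pos_right a1 (mul_pos zi zj)
    have a4 := mul_le_mul_of_nonneg_left a2 (sq_nonneg ε)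
    linarith
  have q4 := mul_lt_mul' hE (mul_lt_mul' a2
    (pow_lt_pow_left₀ h2 (by positivity) two_ne_zero) (by positivity) (mul_pos zi zj))
    (by positivity) (lt_of_lt_of_le (by positivity) hE)
  linarith

theorem Ok.ball (h : Ok W) (t : ℕ) {s θ x : ℝ} (s0 : 0 < s) (θ0 : 0 < θ) (θ1 : θ ≤ 1 / 4)
    (hx : x ^ 2 = 2 * θ) {j : ι} (hj : s ≤ ‖zv W t j‖) :
    ∑ i with s ≤ ‖zv W t i‖ ∧ dist (‖zv W t i‖⁻¹ • zv W t i) (‖zv W t j‖⁻¹ • zv W t j) ≤ x,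
      ‖zv W t i‖ ^ 2 ≤ 1 + 4 * θ := by
  have zj := s0.trans_le hj
  have h1 : ∑ i with s ≤ ‖zv W t i‖ ∧
      dist (‖zv W t i‖⁻¹ • zv W t i) (‖zv W t j‖⁻¹ • zv W t j) ≤ x,
      ‖zv W t i‖ ^ 2 * ((1 - θ) ^ 2 * ‖zv W t j‖ ^ 2) ≤ ‖zv W t j‖ ^ 2 := by
    refine le_trans ?_ (h.F2 t j)
    refine (sum_le_sum fun i hi => ?_).trans
      (sum_le_sum_of_subset_of_nonneg (subset_univ _) fun i _ _ => sq_nonneg _)
    obtain ⟨a1, a2⟩ := (mem_filter.1 hi).2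
    have zi := s0.trans_le a1
    have a3 := dist_unit zi zj
    rw [← h.Fz] at a3
    have a4 := mul_le_mul_of_nonneg_right (pow_le_pow_left₀ dist_nonneg a2 2) (mul_pos zi zj).le
    rw [a3, hx] at a4
    have a5 : ‖zv W t i‖ * ‖zv W t j‖ * (1 - θ) ≤ ((1 - W) ^ (2 * t)) i j := by linarith
    have a6 := pow_le_pow_left₀ (mul_nonneg (mul_pos zi zj).le (by linarith)) a5 2
    linarith
  rw [← sum_mul, ← mul_assoc] at h1
  have h2 := le_of_mul_le_mul_right (h1.trans_eq (one_mul _).symm) (by positivity)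
  have h3 : 1 ≤ (1 + 4 * θ) * (1 - θ) ^ 2 := by nlinarith [mul_pos θ0 θ0, pow_pos θ0 3]
  exact le_of_mul_le_mul_right (h2.trans h3) (pow_pos (by linarith) 2)

theorem term {E F a b e s : ℝ} (s0 : 0 < s) (he : 0 ≤ e) (b4 : 0 ≤ E) (Ee : E ≤ e) (b5 : 0 ≤ a)
    (b6 : 0 ≤ b) (a1 : a ≤ 1) (b3 : F ≤ b * a) (hi : s ≤ a) :
    E * F ≤ (if s ≤ a ∧ s ≤ b ∧ s ^ 2 ≤ E then e / 2 * (a ^ 2 + b ^ 2) else 0) + s * E +
      s * F ^ 2 := by
  have b1 := mul_nonneg s0.le b4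
  have b2 := mul_nonneg s0.le (sq_nonneg F)
  split_ifs with hc
  · have c1 := mul_le_mul_of_nonneg_left b3 b4
    have c2 := mul_le_mul_of_nonneg_right Ee (mul_nonneg b6 b5)
    have c3 := mul_nonneg he (sq_nonneg (a - b))
    linarith
  · by_cases c1 : s ≤ b
    · have c2 : E < s ^ 2 := not_le.1 fun c => hc ⟨hi, c1, c⟩
      have c3 : s * (E * F) ≤ s * (s * E + s * F ^ 2) := by
        nlinarith [sq_nonneg (E - s * F), mul_le_mul_of_nonneg_left c2.le b4]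
      linarith [le_of_mul_le_mul_left c3 s0]
    · have c2 : F ≤ s := by nlinarith [not_le.1 c1]
      linarith [mul_le_mul_of_nonneg_left c2 b4]

theorem Ok.eig (h : Ok W) {E : ι → ι → ℝ} {ρ e κ δ s : ℝ} {t : ℕ} (κ0 : 0 ≤ κ) (s0 : 0 < s)
    (he : 0 ≤ e) (En : ∀ i j, 0 ≤ E i j) (Ee : ∀ i j, E i j ≤ e) (Er : ∀ i, ∑ j, E i j ≤ 1)
    (hW : ∀ i j, |W i j - (if i = j then ρ else 0) + E i j| ≤ κ) (ht : 1 / ((t : ℝ) + 1) ≤ δ)
    (hv : κ * 16 ^ t ≤ δ) {i : ι} (hi : s ≤ ‖zv W t i‖) :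
    ρ * ‖zv W t i‖ ^ 2 ≤ ∑ j with s ≤ ‖zv W t i‖ ∧ s ≤ ‖zv W t j‖ ∧ s ^ 2 ≤ E i j,
      e / 2 * (‖zv W t i‖ ^ 2 + ‖zv W t j‖ ^ 2) + (2 * s + 2 * δ) := by
  have h1 := h.defect t (Pi.single i 1)
  rw [ss, ← h.comm, single_dotProduct, one_mul, mulVec_single_one] at h1
  set F := (1 - W) ^ (2 * t) with hF
  have h2 : ∑ j, W i j * F j i ≤ δ := by
    rw [div_le_iff₀ (by positivity)] at ht
    exact le_of_mul_le_mul_left (h1.trans (by linarith)) (by positivity : (0 : ℝ) < t + 1)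
  have h3 : ∑ j, ((if i = j then ρ else 0) * F j i) ≤ ∑ j, (W i j * F j i + κ * |F j i| +
      ((if s ≤ ‖zv W t i‖ ∧ s ≤ ‖zv W t j‖ ∧ s ^ 2 ≤ E i j then
        e / 2 * (‖zv W t i‖ ^ 2 + ‖zv W t j‖ ^ 2) else 0) + s * E i j + s * F j i ^ 2)) := by
    refine sum_le_sum fun j _ => ?_
    have a1 : -((W i j - (if i = j then ρ else 0) + E i j) * F j i) ≤ κ * |F j i| := by
      refine (neg_le_abs _).trans ?_
      rw [abs_mul]
      exact mul_le_mul_of_nonneg_right (hW i j) (abs_nonneg _)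
    have a2 := term s0 he (En i j) (Ee i j) (norm_nonneg _) (norm_nonneg _) (h.z1 t i)
      (h.Fc t j i) hi
    linarith
  rw [sum_add_distrib, sum_add_distrib, sum_add_distrib, sum_add_distrib, ← mul_sum, ← mul_sum,
    ← mul_sum, ← sum_filter] at h3
  simp only [ite_mul, zero_mul, sum_ite_eq, mem_univ, if_true] at h3
  rw [hF, h.Fd, ← hF] at h3
  have h4 := mul_le_mul_of_nonneg_left (h.F3 t i) κ0
  have h5 := mul_le_mul_of_nonneg_left (Er i) s0.le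
  have h6 := mul_le_mul_of_nonneg_left ((h.F2 t i).trans (h.F1 t i)) s0.le
  have p1 : (1 : ℝ) ≤ 2 ^ (2 * t) := one_le_pow₀ one_le_two
  have h7 : κ * 2 ^ (2 * t) ≤ κ * 16 ^ t := mul_le_mul_of_nonneg_left
    ((le_mul_of_one_le_left (by positivity) p1).trans_eq (p4 t)) κ0
  linarith

end

theorem core {ρ e η : ℝ} {k : ℕ} (he : 0 ≤ e) (hk : 2 ≤ k) (hek : e * (k - 2) < ρ)
    (hη : 0 < η) : ∃ v0 : ℕ, ∀ (ι : Type) [Fintype ι] [DecidableEq ι] (W : Matrix ι ι ℝ)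
    (E : ι → ι → ℝ), v0 ≤ Fintype.card ι → Ok W → (∀ i j, E i j = E j i) → (∀ i, E i i = 0) →
    (∀ i j, 0 ≤ E i j) → (∀ i j, E i j ≤ e) → (∀ i, ∑ j, E i j ≤ 1) →
    (∀ i j, |W i j - (if i = j then ρ else 0) + E i j| ≤ 1 / Fintype.card ι) →
    (Fintype.card ι : ℝ) - W.rank ≤ (1 / k + η) * Fintype.card ι := by
  have hk2 : (2 : ℝ) ≤ k := by exact_mod_cast hk
  obtain ⟨g, hg⟩ : ∃ g, g = ρ - 2 * (e / 2 * (k - 2)) := ⟨_, rfl⟩
  have g0 : 0 < g := by linarith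
  have b0 : 0 ≤ e / 2 * (k - 2) := mul_nonneg (by linarith) (by linarith)
  obtain ⟨R, hR⟩ := exists_nat_gt (e / 2 * (k - 2) / (η * g / 8))
  have hR0 : (0 : ℝ) < R := lt_of_le_of_lt (by positivity) hR
  have hR1 : e / 2 * (k - 2) / R ≤ η * g / 8 := by
    rw [div_lt_iff₀ (by positivity)] at hR
    rw [div_le_iff₀ hR0]
    linarith
  obtain ⟨θ, θ0, θ1, θ2⟩ : ∃ θ : ℝ, 0 < θ ∧ θ ≤ 1 / 4 ∧ θ ≤ η / 8 :=
    ⟨min (1 / 4) (η / 8), by positivity, min_le_left _ _, min_le_right _ _⟩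
  obtain ⟨ε, ε0, ε1⟩ : ∃ ε : ℝ, 0 < ε ∧ ((R + 1) * ε) ^ 2 = 2 * θ :=
    ⟨√(2 * θ) / (R + 1), by positivity, by
      rw [mul_div_cancel₀ _ (by positivity), Real.sq_sqrt (by positivity)]⟩
  obtain ⟨s, s0, s1, s2, s3⟩ : ∃ s : ℝ, 0 < s ∧ s ≤ 1 ∧ s ≤ η / 4 ∧ s ≤ η * g / 32 :=
    ⟨min 1 (min (η / 4) (η * g / 32)), by positivity, min_le_left _ _,
      (min_le_right _ _).trans (min_le_left _ _), (min_le_right _ _).trans (min_le_right _ _)⟩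
  obtain ⟨δ, δ0, d1, d2⟩ : ∃ δ : ℝ, 0 < δ ∧ δ ≤ η * g / 32 ∧ δ ≤ ε ^ 4 * s ^ 8 / 20 :=
    ⟨min _ _, by positivity, min_le_left _ _, min_le_right _ _⟩
  obtain ⟨t, v0, hv0, ht, hv⟩ := params δ0
  have s4 : s * s ≤ η / 4 := (mul_le_of_le_one_left s0.le s1).trans s2
  have h2 : (e / 2 * (k - 2) / R + η * g / 8) / (ρ - 2 * (e / 2 * (k - 2))) ≤ η / 4 := by
    rw [← hg, div_le_iff₀ g0]
    linarith
  have h3 : (1 + 4 * θ) / k ≤ 1 / k + η / 4 := by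
    rw [add_div]
    refine add_le_add le_rfl ?_
    rw [div_le_iff₀ (by linarith)]
    nlinarith
  refine ⟨v0, fun ι _ _ W E hc h Es E0 En Ee Er hW => ?_⟩
  have hv1 := hv _ hc
  have κ0 : 0 ≤ 1 / (Fintype.card ι : ℝ) := by positivity
  have key := cluster (fun i => ‖zv W t i‖ ^ 2) (fun i => s ≤ ‖zv W t i‖)
    (fun i j => s ≤ ‖zv W t i‖ ∧ s ≤ ‖zv W t j‖ ∧ s ^ 2 ≤ E i j)
    (fun i j => dist (‖zv W t i‖⁻¹ • zv W t i) (‖zv W t j‖⁻¹ • zv W t j)) (ρ := ρ) (c := e / 2)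
    (σ := η * g / 8)
    (τ := η / 4) (ε := ε) (B := 1 + 4 * θ) (k := k) (R := R) hk (by exact_mod_cast hR0)
    (by positivity) (by positivity) (by positivity) ε0.le (by positivity) (by linarith)
    (fun i => sq_nonneg _) (h.F1 t)
    (fun i hi => by
      rw [sq]
      exact (mul_self_le_mul_self (norm_nonneg _) (not_le.1 hi).le).trans s4)
    (fun i => dist_self _) (fun i j l => dist_triangle _ _ _)
    (fun i j hij => ⟨hij.2.1, hij.1, Es i j ▸ hij.2.2⟩)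
    (fun i hi => absurd hi.2.2 (by rw [E0]; exact not_le.2 (by positivity)))
    (fun i j hij => hij.2.1) ?_ (fun j hj => (sf _ _ _).trans_le (h.ball t s0 θ0 θ1 ε1 hj))
    (fun i hi => (h.eig κ0 s0 he En Ee Er hW ht hv1 hi).trans
      (add_le_add (sf _ _ _).le (by linarith)))
  · have h1 := h.trace_ge t
    simp only [h.Fd] at h1
    refine h1.trans (key.trans (mul_le_mul_of_nonneg_right ?_ (Nat.cast_nonneg _)))
    linarith
  · rintro i j ⟨hi, hj, hE⟩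
    have hij : i ≠ j := fun e => by
      rw [e, E0] at hE
      exact absurd hE (not_le.2 (by positivity))
    refine h.close s0 ε0 hi hj hE ((h.pair κ0 En (fun a b hab => ?_) ht hv1 hij).trans (by linarith))
    have := (abs_le.1 (hW a b)).2
    rwa [if_neg hab, sub_zero] at this

end Pool.Agent.P.MP_c2263a_gt.Fix
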