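import Pool.Agent.P.MP_c2263a_gt.Fix.Defect
import Pool.Agent.P.MP_c2263a_gt.Fix.Mult

/-! Centred frames. -/

set_option autoImplicit false

namespace Pool.Agent.P.MP_c2263a_gt.Fix

open Finset Matrix

variable {ι : Type} [Fintype ι] [DecidableEq ι] {m n : ℕ} {ρ D : ℝ}
  {y : ι → Fin n → Fin m → ℝ} {Δ : ι → Fin n → ι → Fin n → ℝ}

theorem Df.symm (h : Df ρ D y Δ) (i : ι) (a : Fin n) (k : ι) (b : Fin n) :
    Δ i a k b = Δ k b i a := by
  have h1 := h.gram i a k b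
  have h2 := h.gram k b i a
  rw [dotProduct_comm] at h2
  simp only [eq_comm (a := k), eq_comm (a := b)] at h2
  linarith

theorem Df.le (h : Df ρ D y Δ) (i : ι) (a : Fin n) (k : ι) (c : Fin n) :
    Δ i a k c ^ 2 ≤ 2 * Δ i a k a :=
  (single_le_sum (f := fun c => Δ i a k c ^ 2) (fun _ _ => sq_nonneg _) (mem_univ c)).trans_eq
    (h.sq i a k)

theorem Df.nonneg (h : Df ρ D y Δ) (i : ι) (a : Fin n) (k : ι) : 0 ≤ Δ i a k a := by
  linarith [h.le i a k a, sq_nonneg (Δ i a k a)]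

theorem Df.two (h : Df ρ D y Δ) (i : ι) (a : Fin n) (k : ι) : Δ i a k a ≤ 2 := by
  nlinarith [h.le i a k a]

theorem Df.abs (h : Df ρ D y Δ) (i : ι) (a : Fin n) (k : ι) (c : Fin n) : |Δ i a k c| ≤ 2 :=
  abs_le_of_sq_le_sq (by linarith [h.le i a k c, h.two i a k]) zero_le_two

/-- the centred vectors -/
noncomputable def cen (y : ι → Fin n → Fin m → ℝ) (i : ι) (a : Fin n) : Fin m → ℝ :=
  y i a - (Fintype.card ι : ℝ)⁻¹ • ∑ l, y l a

/-- the error term of the centred Gram matrix -/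
noncomputable def err (ρ : ℝ) (y : ι → Fin n → Fin m → ℝ) (Δ : ι → Fin n → ι → Fin n → ℝ)
    (i : ι) (a : Fin n) (k : ι) (b : Fin n) : ℝ :=
  cen y i a ⬝ᵥ cen y k b - (if i = k ∧ a = b then ρ else 0) + Δ i a k b

theorem Df.err_le (h : Df ρ D y Δ) (hρ : 0 ≤ ρ) (i : ι) (a : Fin n) (k : ι) (b : Fin n) {β : ℝ}
    (h1 : ∀ l, |∑ j, Δ l a j b| ≤ β) (h2 : ∀ l, |∑ j, Δ l b j a| ≤ β) :
    |err ρ y Δ i a k b| ≤ (3 * β + ρ) / Fintype.card ι := by
  have hv : (0 : ℝ) < Fintype.card ι := by exact_mod_cast Fintype.card_pos_iff.2 ⟨i⟩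
  have e1 : ∀ i a b, y i a ⬝ᵥ ∑ l, y l b = (if a = b then ρ else 0) +
      Fintype.card ι * (if a = b then 1 else 0) - ∑ l, Δ i a l b := fun i a b => by
    rw [dotProduct_sum]
    simp only [h.gram, sum_sub_distrib, sum_add_distrib, sum_const, card_univ, nsmul_eq_mul,
      ite_and, sum_ite_eq, mem_univ, if_true]
  have e2 : err ρ y Δ i a k b = (∑ l, Δ i a l b + ∑ l, Δ k b l a -
      (∑ l, ∑ j, Δ l a j b) / Fintype.card ι - if a = b then ρ else 0) / Fintype.card ι := by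
    unfold err cen
    rw [sub_dotProduct, dotProduct_sub, dotProduct_sub, dotProduct_smul, smul_dotProduct,
      dotProduct_smul, smul_dotProduct, dotProduct_comm (∑ l, y l a) (y k b), e1, e1,
      sum_dotProduct, h.gram]
    simp only [e1, sum_sub_distrib, sum_add_distrib, sum_const, card_univ, nsmul_eq_mul,
      smul_eq_mul, eq_comm (a := b)]
    field_simp
    ring
  rw [e2, abs_div, abs_of_pos hv]
  refine div_le_div_of_nonneg_right ?_ hv.le
  have h3 : |(∑ l, ∑ j, Δ l a j b) / Fintype.card ι| ≤ β := by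
    rw [abs_div, abs_of_pos hv, div_le_iff₀ hv]
    refine (abs_sum_le_sum_abs _ _).trans ((sum_le_sum fun l _ => h1 l).trans_eq ?_)
    rw [sum_const, card_univ, nsmul_eq_mul, mul_comm]
  have h4 : |if a = b then ρ else 0| ≤ ρ := by
    split_ifs
    · exact (abs_of_nonneg hρ).le
    · simpa using hρ
  have a1 := abs_le.1 (h1 i)
  have a2 := abs_le.1 (h2 k)
  have a3 := abs_le.1 h3
  have a4 := abs_le.1 h4
  rw [abs_le]
  constructor <;> linarith [a1.1, a1.2, a2.1, a2.2, a3.1, a3.2, a4.1, a4.2]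

theorem Df.err_diag (h : Df ρ D y Δ) (hρ : 0 ≤ ρ) (i : ι) (a : Fin n) (k : ι) :
    |err ρ y Δ i a k a| ≤ (3 * D + ρ) / Fintype.card ι := by
  have : ∀ l, |∑ j, Δ l a j a| ≤ D := fun l => by
    rw [abs_of_nonneg (sum_nonneg fun j _ => h.nonneg l a j)]
    exact h.row l a
  exact h.err_le hρ i a k a this this

theorem err_small {ρ D κ : ℝ} (hρ : 0 ≤ ρ) (hD : 0 ≤ D) (hκ : 0 < κ) : ∃ v0 : ℕ,
    ∀ (ι : Type) [Fintype ι] [DecidableEq ι] (m n : ℕ) (y : ι → Fin n → Fin m → ℝ)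
      (Δ : ι → Fin n → ι → Fin n → ℝ), v0 ≤ Fintype.card ι → Df ρ D y Δ →
      ∀ i a k b, |err ρ y Δ i a k b| ≤ κ := by
  obtain ⟨v0, hv0⟩ := exists_nat_gt ((3 * (D / (κ / 3)) + ρ) / (κ / 2))
  refine ⟨v0, fun ι _ _ m n y Δ hv h i a k b => ?_⟩
  have hv1 : (0 : ℝ) < Fintype.card ι := by exact_mod_cast Fintype.card_pos_iff.2 ⟨i⟩
  have hv2 : (v0 : ℝ) ≤ Fintype.card ι := by exact_mod_cast hv
  have key : ∀ l a b, |∑ j, Δ l a j b| ≤ κ / 6 * Fintype.card ι + D / (κ / 3) := fun l a b => by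
    refine (abs_sum_le_sum_abs _ _).trans ?_
    have : ∀ j, |Δ l a j b| ≤ κ / 6 + Δ l a j a / (κ / 3) := fun j => by
      have h1 := h.le l a j b
      rw [← sq_abs] at h1
      rw [← sub_le_iff_le_add', le_div_iff₀ (by positivity)]
      nlinarith [sq_nonneg (|Δ l a j b| - κ / 3)]
    refine (sum_le_sum fun j _ => this j).trans ?_
    rw [sum_add_distrib, sum_const, card_univ, nsmul_eq_mul, ← sum_div, mul_comm]
    exact add_le_add le_rfl (div_le_div_of_nonneg_right (h.row l a) (by positivity))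
  refine (h.err_le hρ i a k b (fun l => key l a b) fun l => key l b a).trans ?_
  rw [div_lt_iff₀ (by positivity)] at hv0
  rw [div_le_iff₀ hv1]
  nlinarith

theorem Df.entry (h : Df ρ D y Δ) (hρ : 0 < ρ) {κ : ℝ} (hκ : ∀ i a k b, |err ρ y Δ i a k b| ≤ κ)
    (k : ι) (a : Fin n) (i : ι) : ρ * (2 * Δ k a i a) ≤ ρ ^ 3 + κ * (ρ + 2 * n) ^ 2 := by
  have κ0 : 0 ≤ κ := (abs_nonneg _).trans (hκ k a k a)
  by_cases e : k = i
  · rw [e, h.self, mul_zero, mul_zero]
    positivity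
  have g : ∀ i a k b, cen y i a ⬝ᵥ cen y k b =
      (if i = k ∧ a = b then ρ else 0) - Δ i a k b + err ρ y Δ i a k b := fun i a k b => by
    unfold err
    ring
  set q : Fin m → ℝ := ∑ c, Δ k a i c • cen y i c with hq
  have h0 : 0 ≤ (ρ • cen y k a + q) ⬝ᵥ (ρ • cen y k a + q) :=
    sum_nonneg fun _ _ => mul_self_nonneg _
  rw [add_dotProduct, dotProduct_add, dotProduct_add, smul_dotProduct, smul_dotProduct,
    dotProduct_smul, dotProduct_smul, dotProduct_comm q (cen y k a)] at h0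
  simp only [smul_eq_mul] at h0
  have b1 : cen y k a ⬝ᵥ cen y k a ≤ ρ + κ := by
    rw [g, if_pos ⟨rfl, rfl⟩, h.self]
    linarith [(abs_le.1 (hκ k a k a)).2]
  have b2 : cen y k a ⬝ᵥ q ≤ -(2 * Δ k a i a) + n * (2 * κ) := by
    rw [hq, dotProduct_sum, ← h.sq, ← sum_neg_distrib]
    refine le_trans (sum_le_sum (g := fun c => -Δ k a i c ^ 2 + 2 * κ) fun c _ => ?_) (by
      rw [sum_add_distrib, sum_const, card_univ, Fintype.card_fin, nsmul_eq_mul])
    rw [dotProduct_smul, smul_eq_mul, g, if_neg fun c => e c.1]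
    have := (le_abs_self _).trans ((abs_mul _ _).le.trans
      (mul_le_mul (h.abs k a i c) (hκ k a i c) (abs_nonneg _) zero_le_two))
    linarith
  have b3 : q ⬝ᵥ q ≤ ρ * (2 * Δ k a i a) + n * (n * (4 * κ)) := by
    rw [hq, sum_dotProduct, ← h.sq, mul_sum]
    refine le_trans (sum_le_sum (g := fun c => ρ * Δ k a i c ^ 2 + n * (4 * κ)) fun c _ => ?_) (by
      rw [sum_add_distrib, sum_const, card_univ, Fintype.card_fin, nsmul_eq_mul])
    rw [dotProduct_sum]
    refine le_trans (sum_le_sum (g := fun c' => (if c = c' then ρ * Δ k a i c ^ 2 else 0) + 4 * κ)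
      fun c' _ => ?_) (by
        rw [sum_add_distrib, sum_ite_eq, if_pos (mem_univ _), sum_const, card_univ,
          Fintype.card_fin, nsmul_eq_mul])
    rw [dotProduct_smul, smul_dotProduct, smul_eq_mul, smul_eq_mul, g, h.self]
    have a1 : |Δ k a i c * err ρ y Δ i c i c'| ≤ 2 * κ := (abs_mul _ _).le.trans
      (mul_le_mul (h.abs k a i c) (hκ i c i c') (abs_nonneg _) zero_le_two)
    have a2 := (le_abs_self _).trans ((abs_mul _ _).le.trans
      (mul_le_mul (h.abs k a i c') a1 (abs_nonneg _) zero_le_two))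
    by_cases e' : c = c'
    · subst e'
      simp only [and_self, if_true]
      linarith
    · rw [if_neg fun c => e' c.2, if_neg e']
      linarith
  have b4 := mul_le_mul_of_nonneg_left b1 (mul_pos hρ hρ).le
  have b5 := mul_le_mul_of_nonneg_left b2 hρ.le
  linarith

/-- the normalised centred Gram matrix of one slice -/
noncomputable def sli (ρ D : ℝ) (y : ι → Fin n → Fin m → ℝ) (a : Fin n) : Matrix ι ι ℝ :=
  fun i k => (2 * ρ + 4 * D)⁻¹ * (cen y i a ⬝ᵥ cen y k a)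

omit [DecidableEq ι] in
theorem sli_rank (ρ D : ℝ) (y : ι → Fin n → Fin m → ℝ) (a : Fin n) : (sli ρ D y a).rank ≤ m := by
  have : sli ρ D y a = (of fun i r => (2 * ρ + 4 * D)⁻¹ * cen y i a r) *
      (of fun r k => cen y k a r : Matrix (Fin m) ι ℝ) := by
    ext i k
    simp only [sli, mul_apply, of_apply, dotProduct, mul_sum, mul_assoc]
  rw [this]
  exact (rank_mul_le_right _ _).trans ((rank_le_card_height _).trans_eq (Fintype.card_fin m))

theorem sli_eq (a : Fin n) (i k : ι) : sli ρ D y a i k = (2 * ρ + 4 * D)⁻¹ *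
    ((if i = k then ρ else 0) - Δ i a k a + err ρ y Δ i a k a) := by
  simp only [sli, err, and_true]
  ring

theorem Df.ok (h : Df ρ D y Δ) (hρ : 0 < ρ) (hD : 0 ≤ D) (a : Fin n) : Ok (sli ρ D y a) := by
  have hN : 0 < 2 * ρ + 4 * D := by positivity
  refine ⟨fun i k => by rw [sli, sli, dotProduct_comm], fun x => ?_, fun i => ?_⟩
  · have : x ⬝ᵥ sli ρ D y a *ᵥ x =
        (2 * ρ + 4 * D)⁻¹ * ((∑ i, x i • cen y i a) ⬝ᵥ ∑ i, x i • cen y i a) := by
      rw [quad, sum_dotProduct, mul_sum]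
      refine sum_congr rfl fun i _ => ?_
      rw [dotProduct_sum, mul_sum]
      refine sum_congr rfl fun k _ => ?_
      rw [sli, dotProduct_smul, smul_dotProduct, smul_eq_mul, smul_eq_mul]
      ring
    rw [this]
    exact mul_nonneg (by positivity) (sum_nonneg fun _ _ => mul_self_nonneg _)
  · have hv : (0 : ℝ) < Fintype.card ι := by exact_mod_cast Fintype.card_pos_iff.2 ⟨i⟩
    calc _ ≤ ∑ k, (2 * ρ + 4 * D)⁻¹ * ((if i = k then ρ else 0) + Δ i a k a +
          (3 * D + ρ) / Fintype.card ι) := by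
          refine sum_le_sum fun k _ => ?_
          rw [sli_eq (Δ := Δ), abs_mul, abs_of_pos (inv_pos.2 hN)]
          refine mul_le_mul_of_nonneg_left ((abs_add_le _ _).trans (add_le_add
            ((abs_sub _ _).trans_eq ?_) (h.err_diag hρ.le i a k))) (inv_pos.2 hN).le
          rw [abs_of_nonneg (h.nonneg i a k), abs_of_nonneg (by split_ifs; exacts [hρ.le, le_rfl])]
      _ ≤ _ := by
          rw [← mul_sum, sum_add_distrib, sum_add_distrib, sum_ite_eq, if_pos (mem_univ _),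
            sum_const, card_univ, nsmul_eq_mul, mul_div_cancel₀ _ hv.ne', inv_mul_le_iff₀ hN]
          linarith [h.row i a]

theorem slice {ρ D e η : ℝ} {k : ℕ} (hρ : 0 < ρ) (hD : 0 ≤ D) (he : 0 ≤ e) (hk : 2 ≤ k)
    (hek : e * (k - 2) < ρ) (hη : 0 < η) : ∃ v0 : ℕ,
    ∀ (ι : Type) [Fintype ι] [DecidableEq ι] (m n : ℕ) (y : ι → Fin n → Fin m → ℝ)
      (Δ : ι → Fin n → ι → Fin n → ℝ) (a : Fin n), v0 ≤ Fintype.card ι → Df ρ D y Δ →
      (∀ i k, Δ i a k a ≤ e) → (Fintype.card ι : ℝ) - m ≤ (1 / k + η) * Fintype.card ι := by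
  have hN : 0 < 2 * ρ + 4 * D := by positivity
  have hN' := inv_pos.2 hN
  obtain ⟨v0, hv0⟩ := core (ρ := (2 * ρ + 4 * D)⁻¹ * ρ) (e := (2 * ρ + 4 * D)⁻¹ * e) (by positivity)
    hk (by rw [mul_assoc]; exact mul_lt_mul_of_pos_left hek hN') hη
  refine ⟨v0, fun ι _ _ m n y Δ a hv h hE => le_trans ?_ (hv0 ι (sli ρ D y a)
    (fun i k => (2 * ρ + 4 * D)⁻¹ * Δ i a k a) hv (h.ok hρ hD a)
    (fun i k => by rw [h.symm]) (fun i => by rw [h.self, mul_zero])
    (fun i k => mul_nonneg hN'.le (h.nonneg i a k))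
    (fun i k => mul_le_mul_of_nonneg_left (hE i k) hN'.le) (fun i => ?_) fun i k => ?_)⟩
  · have : ((sli ρ D y a).rank : ℝ) ≤ m := by exact_mod_cast sli_rank ρ D y a
    linarith
  · rw [← mul_sum, inv_mul_le_iff₀ hN]
    linarith [h.row i a]
  · have hv : (0 : ℝ) < Fintype.card ι := by exact_mod_cast Fintype.card_pos_iff.2 ⟨i⟩
    have : sli ρ D y a i k - (if i = k then (2 * ρ + 4 * D)⁻¹ * ρ else 0) +
        (2 * ρ + 4 * D)⁻¹ * Δ i a k a = (2 * ρ + 4 * D)⁻¹ * err ρ y Δ i a k a := by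
      rw [sli_eq (Δ := Δ)]
      split_ifs <;> ring
    rw [this, abs_mul, abs_of_pos hN', inv_mul_le_iff₀ hN, mul_one_div]
    exact (h.err_diag hρ.le i a k).trans (div_le_div_of_nonneg_right (by linarith) hv.le)

end Pool.Agent.P.MP_c2263a_gt.Fix
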