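import Pool.Agent.P.MP_c2263a_gt.Fix.Pat
import Pool.Agent.P.MP_c2263a_gt.Fix.Asm

/-! The construction of many equi-isoclinic 3-planes with cosine `1 / (2 k - 1)`. -/

set_option autoImplicit false

namespace Pool.Agent.P.MP_c2263a_gt.Fix

open Finset Matrix

section vec

variable {L X Ω J : Type} [Fintype X] [Fintype Ω] [DecidableEq Ω] [Fintype J]

/-- a vector valued function on a line, extended by zero -/
def vec (ι : Fin 4 → L → X → Ω) (g : Fin 4) (l : L) (F : X → J → ℝ) : Ω × J → ℝ :=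
  fun z => ∑ x, if ι g l x = z.1 then F x z.2 else 0

theorem vec_dot (ι : Fin 4 → L → X → Ω) (g h : Fin 4) (l l' : L) (F F' : X → J → ℝ) :
    vec ι g l F ⬝ᵥ vec ι h l' F' =
      ∑ x, ∑ x', if ι g l x = ι h l' x' then F x ⬝ᵥ F' x' else 0 := by
  simp only [dotProduct, vec, sum_mul_sum]
  rw [sum_comm]
  refine sum_congr rfl fun x _ => ?_
  rw [sum_comm]
  refine sum_congr rfl fun x' _ => ?_
  rw [Fintype.sum_prod_type, sum_eq_single (ι g l x) (fun b _ hb => by simp [hb.symm]) (by simp)]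
  by_cases e : ι g l x = ι h l' x'
  · simp [e]
  · simp [e, Ne.symm e]

theorem vec_same [DecidableEq L] [DecidableEq X] {ι : Fin 4 → L → X → Ω}
    (h1 : ∀ g l x l' x', ι g l x = ι g l' x' ↔ l = l' ∧ x = x') (g : Fin 4) (l l' : L)
    (F F' : X → J → ℝ) :
    vec ι g l F ⬝ᵥ vec ι g l' F' = if l = l' then ∑ x, F x ⬝ᵥ F' x else 0 := by
  simp only [vec_dot, h1, ite_and, sum_ite_irrel, sum_ite_eq, mem_univ, if_true, sum_const_zero]

theorem vec_diff [DecidableEq X] {ι : Fin 4 → L → X → Ω} {g h : Fin 4} {l l' : L} {y y' : X}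
    (h2 : ∀ x x', ι g l x = ι h l' x' ↔ x = y ∧ x' = y') (F F' : X → J → ℝ) :
    vec ι g l F ⬝ᵥ vec ι h l' F' = F y ⬝ᵥ F' y' := by
  simp only [vec_dot, h2, ite_and, sum_ite_irrel, sum_ite_eq', mem_univ, if_true, sum_const_zero]

omit [Fintype Ω] [Fintype J] in
theorem vec_sum {A B : Type} [Fintype A] [Fintype B] (ι : Fin 4 → L → X → Ω) (g : Fin 4) (l : L)
    (c : A → B → ℝ) (F : A → B → X → J → ℝ) : ∑ a, ∑ b, c a b • vec ι g l (F a b) =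
      vec ι g l fun x => ∑ a, ∑ b, c a b • F a b x := by
  funext z
  simp only [vec, Finset.sum_apply, Pi.smul_apply, smul_eq_mul, mul_sum, mul_ite, mul_zero]
  rw [sum_congr rfl fun a _ => sum_comm, sum_comm]
  simp only [sum_ite_irrel, sum_const_zero]

end vec

theorem gram_sum {A J : Type} [Fintype A] [Fintype J] (f : A → ℝ) (x : A → J → ℝ) :
    ∑ i, ∑ j, f i * f j * (x i ⬝ᵥ x j) = (∑ i, f i • x i) ⬝ᵥ ∑ i, f i • x i := by
  rw [sum_dotProduct]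
  refine sum_congr rfl fun i _ => ?_
  rw [dotProduct_sum]
  refine sum_congr rfl fun j _ => ?_
  rw [smul_dotProduct, dotProduct_smul, smul_eq_mul, smul_eq_mul, mul_assoc]

theorem four_le {J : Type} [Fintype J] (v : Fin 4 → J → ℝ) :
    (∑ g, v g) ⬝ᵥ (∑ g, v g) ≤ 4 * ∑ g, v g ⬝ᵥ v g := by
  simp only [dotProduct, Finset.sum_apply, ← sq]
  rw [sum_comm, mul_sum]
  refine sum_le_sum fun j _ => ?_
  simpa using sq_sum_le_card_mul_sum_sq (s := univ) (f := fun g => v g j)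

theorem sum_ne {T : Type} [Fintype T] [DecidableEq T] (o : T) (F : T → ℝ) :
    ∑ x : {x // x ≠ o}, F x = ∑ x, F x - F o := by
  rw [← sum_subtype (univ.erase o) (by simp) F, sum_erase_eq_sub (mem_univ o)]

theorem angles {k A : ℝ} (hk : 2 ≤ k) (A0 : 0 ≤ A) (A1 : A ≤ 1) : ∃ φ β : ℝ, 0 ≤ φ ∧ φ ≤ 1 ∧
    0 ≤ β ∧ β ≤ A ^ 2 ∧ (A * (1 - 1 / k)) ^ 2 + (1 - φ - β * (1 - 1 / k)) ^ 2 = 1 ∧
      (A * (0 - 1 / k)) ^ 2 + (1 - φ - β * (0 - 1 / k)) ^ 2 = 1 := by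
  obtain ⟨x, hx⟩ : ∃ x, x = 1 / k := ⟨_, rfl⟩
  have x0 : 0 ≤ x := by rw [hx]; positivity
  have x1 : x ≤ 1 / 2 := hx ▸ one_div_le_one_div_of_le two_pos hk
  rw [← hx]
  have b1 : (A * x) ^ 2 ≤ (A * (1 - x)) ^ 2 :=
    pow_le_pow_left₀ (by positivity) (mul_le_mul_of_nonneg_left (by linarith) A0) 2
  have b2 : (A * (1 - x)) ^ 2 ≤ A ^ 2 :=
    pow_le_pow_left₀ (mul_nonneg A0 (by linarith)) (mul_le_of_le_one_right A0 (by linarith)) 2
  have b3 : A ^ 2 ≤ 1 := pow_le_one₀ A0 A1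
  obtain ⟨c1, c10, c11⟩ : ∃ c : ℝ, 0 ≤ c ∧ c ^ 2 = 1 - (A * (1 - x)) ^ 2 :=
    ⟨_, Real.sqrt_nonneg _, Real.sq_sqrt (by linarith)⟩
  obtain ⟨c0, c00, c01⟩ : ∃ c : ℝ, 0 ≤ c ∧ c ^ 2 = 1 - (A * x) ^ 2 :=
    ⟨_, Real.sqrt_nonneg _, Real.sq_sqrt (by linarith)⟩
  have d1 : c1 ≤ c0 := pow_le_pow_left₀ c00 le_rfl 1 |> fun _ =>
    abs_le_of_sq_le_sq' (by linarith) c00 |>.2
  have d2 : c0 ≤ 1 := (abs_le_of_sq_le_sq' (by nlinarith [sq_nonneg (A * x)]) zero_le_one).2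
  have d3 : 1 - A ^ 2 ≤ c1 := by nlinarith
  refine ⟨1 - c0 + (c0 - c1) * x, c0 - c1, by nlinarith, by nlinarith, by linarith, by linarith,
    by linear_combination c11, by linear_combination c01⟩

section main

variable {k : ℕ} [NeZero k] {J L Λ M Ω : Type} [Fintype J] [Fintype L] [DecidableEq L] [Fintype Λ]
  [DecidableEq Λ] [Fintype M] [DecidableEq M] [Fintype Ω] [DecidableEq Ω] {o : Λ × M}

/-- the unsigned vectors -/
def uv (w : ZMod k → J → ℝ) (γ : Λ → Λ → ZMod k) (ι : Fin 4 → L → {x // x ≠ o} × Λ → Ω)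
    (b : Fin 4 × L × Λ × ZMod k) : Ω × J → ℝ :=
  vec ι b.1 b.2.1 fun x => w (b.2.2.2 + γ b.2.2.1 x.1.1.1)

theorem uv_le {w : ZMod k → J → ℝ} {γ : Λ → Λ → ZMod k} {ι : Fin 4 → L → {x // x ≠ o} × Λ → Ω}
    {c : ℝ} (h1 : ∀ g l x l' x', ι g l x = ι g l' x' ↔ l = l' ∧ x = x')
    (hγ : ∀ f : Λ → ZMod k → ℝ, ∑ b, (∑ a, ps w (f a) (γ a b)) ⬝ᵥ (∑ a, ps w (f a) (γ a b)) ≤
      c * ∑ a, ps w (f a) 0 ⬝ᵥ ps w (f a) 0) (f : Fin 4 × L × Λ × ZMod k → ℝ) :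
    ∑ b, ∑ b', f b * f b' * (uv w γ ι b ⬝ᵥ uv w γ ι b') ≤
      4 * (Fintype.card Λ * Fintype.card M * c) * ∑ b, ∑ b', f b * f b' *
        if b.1 = b'.1 ∧ b.2.1 = b'.2.1 ∧ b.2.2.1 = b'.2.2.1 then w b.2.2.2 ⬝ᵥ w b'.2.2.2 else 0 := by
  have e1 : ∑ b, ∑ b', f b * f b' * (if b.1 = b'.1 ∧ b.2.1 = b'.2.1 ∧ b.2.2.1 = b'.2.2.1 then
      w b.2.2.2 ⬝ᵥ w b'.2.2.2 else 0) =
      ∑ g, ∑ l, ∑ a, ps w (fun s => f (g, l, a, s)) 0 ⬝ᵥ ps w (fun s => f (g, l, a, s)) 0 := by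
    simp only [Fintype.sum_prod_type, ite_and, mul_ite, mul_zero, sum_ite_irrel, sum_const_zero,
      sum_ite_eq, mem_univ, if_true, ps, add_zero, ← gram_sum]
  have e2 : ∑ b, f b • uv w γ ι b =
      ∑ g, ∑ l, vec ι g l fun x => ∑ a, ps w (fun s => f (g, l, a, s)) (γ a x.1.1.1) := by
    simp only [Fintype.sum_prod_type, uv, vec_sum, ps]
  rw [gram_sum, e1, e2, mul_assoc]
  refine (four_le _).trans (mul_le_mul_of_nonneg_left ?_ (by norm_num))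
  rw [mul_sum]
  refine sum_le_sum fun g _ => ?_
  rw [sum_dotProduct, mul_sum]
  refine sum_le_sum fun l _ => ?_
  rw [dotProduct_sum]
  simp only [vec_same h1, sum_ite_eq, mem_univ, if_true]
  rw [Fintype.sum_prod_type]
  simp only [sum_const, card_univ, nsmul_eq_mul, ← mul_sum]
  rw [mul_assoc, mul_assoc]
  refine mul_le_mul_of_nonneg_left ?_ (Nat.cast_nonneg _)
  rw [sum_ne o fun x => (∑ a, ps w (fun s => f (g, l, a, s)) (γ a x.1)) ⬝ᵥ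
    ∑ a, ps w (fun s => f (g, l, a, s)) (γ a x.1), Fintype.sum_prod_type]
  simp only [sum_const, card_univ, nsmul_eq_mul, ← mul_sum]
  exact (sub_le_self _ (dnn _)).trans (mul_le_mul_of_nonneg_left (hγ _) (Nat.cast_nonneg _))

theorem build {w : ZMod k → J → ℝ} {γ : Λ → Λ → ZMod k} {ι : Fin 4 → L → {x // x ≠ o} × Λ → Ω}
    {c : ℝ} {H1 : Λ × M → Λ × M → ℝ} {H2 : Λ → Λ → ℝ} {o2 : Λ} (hk : 2 ≤ k)
    (hw : ∀ s t, w s ⬝ᵥ w t = (if s = t then 1 else 0) - 1 / (k : ℝ))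
    (h1 : ∀ g l x l' x', ι g l x = ι g l' x' ↔ l = l' ∧ x = x')
    (h2 : ∀ g h, g ≠ h → ∀ l l', ∃ y y', ∀ x x', ι g l x = ι h l' x' ↔ x = y ∧ x' = y')
    (hγ : ∀ f : Λ → ZMod k → ℝ, ∑ b, (∑ a, ps w (f a) (γ a b)) ⬝ᵥ (∑ a, ps w (f a) (γ a b)) ≤
      c * ∑ a, ps w (f a) 0 ⬝ᵥ ps w (f a) 0) (c0 : 0 ≤ c)
    (hc : 4 * k * c ≤ (Fintype.card Λ : ℝ) ^ 2) (hH1 : Had H1 o) (hH2 : Had H2 o2)
    (hbig : (2 * k : ℝ) ≤ Fintype.card Λ * (Fintype.card Λ * Fintype.card M)) {m : ℕ}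
    (hm : 4 * Fintype.card (Ω × J) + 3 * Fintype.card (Fin 4 × L × Λ × ZMod k) ≤ m) :
    ∃ U : Fin (Fintype.card ((Fin 4 × L × Λ × ZMod k) × (Λ × M))) →
      Submodule ℝ (EuclideanSpace ℝ (Fin m)), (∀ i, Module.finrank ℝ (U i) = 3) ∧
      ∀ i j, i ≠ j → ∀ u ∈ U i,
        ‖(U j).starProjection u‖ ^ 2 = (1 / (2 * (k : ℝ) - 1)) ^ 2 * ‖u‖ ^ 2 := by
  have k2 : (2 : ℝ) ≤ k := by exact_mod_cast hk
  have n0 : (0 : ℝ) < Fintype.card Λ := by exact_mod_cast Fintype.card_pos_iff.2 ⟨o2⟩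
  have N0 : (0 : ℝ) < Fintype.card M := by exact_mod_cast Fintype.card_pos_iff.2 ⟨o.2⟩
  set n : ℝ := (Fintype.card Λ : ℝ) with hn
  set N : ℝ := (Fintype.card M : ℝ) with hN
  obtain ⟨A, hA⟩ : ∃ A : ℝ, A = 2 * k / (n * (n * N)) := ⟨_, rfl⟩
  have A0 : 0 ≤ A := by rw [hA]; positivity
  have A1 : A ≤ 1 := by rwa [hA, div_le_one (by positivity)]
  have A2 : A * (n * (n * N)) = 2 * k := by rw [hA, div_mul_cancel₀ _ (by positivity)]
  obtain ⟨a, ha⟩ : ∃ a : ℝ, a * a = A := ⟨√A, Real.mul_self_sqrt A0⟩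
  obtain ⟨φ, β, φ0, φ1, β0, β1, an1, an0⟩ := angles k2 A0 A1
  have β2 : β / 2 * (4 * (n * N * c)) ≤ A * n := by
    have a1 := mul_le_mul_of_nonneg_right β1 (show 0 ≤ 2 * (n * N * c) by positivity)
    have a2 := mul_le_mul_of_nonneg_left hc A0
    refine le_of_mul_le_mul_left ?_ n0
    have a3 := mul_le_mul_of_nonneg_left a1 n0.le
    have a4 : n * (A ^ 2 * (2 * (n * N * c))) = A * (4 * k * c) := by
      linear_combination 2 * A * c * A2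
    linarith
  choose r hr using fun e : Fin 3 => gram_of_psd (fun b b' : Fin 4 × L × Λ × ZMod k =>
    (1 - φ / 2) + φ / 2 * ((sd e b.1 : ℝ) * sd e b'.1) +
      β / 2 * ((sd e b.1 : ℝ) * sd e b'.1 * (uv w γ ι b ⬝ᵥ uv w γ ι b')) +
      (A * n * (if b.1 = b'.1 ∧ b.2.1 = b'.2.1 ∧ b.2.2.1 = b'.2.2.1 then
        w b.2.2.2 ⬝ᵥ w b'.2.2.2 else 0) - β / 2 * (uv w γ ι b ⬝ᵥ uv w γ ι b')))
    (fun b b' => by
      rw [dotProduct_comm (uv w γ ι b), dotProduct_comm (w b.2.2.2), mul_comm (sd e b.1 : ℝ)]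
      simp only [eq_comm (a := b.1), eq_comm (a := b.2.1), eq_comm (a := b.2.2.1)])
    (fun f => by
      have a1 := uv_le h1 hγ f
      rw [← hn, ← hN] at a1
      have a2 : 0 ≤ ∑ b, ∑ b', f b * f b' * (uv w γ ι b ⬝ᵥ uv w γ ι b') := by
        rw [gram_sum]
        exact dnn _
      have a3 : 0 ≤ ∑ b, ∑ b', f b * sd e b.1 * (f b' * sd e b'.1) *
          (uv w γ ι b ⬝ᵥ uv w γ ι b') := by
        rw [gram_sum fun b => f b * sd e b.1]
        exact dnn _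
      have a4 : 0 ≤ ∑ b, ∑ b', f b * f b' := by
        rw [← sum_mul_sum]
        exact mul_self_nonneg _
      have a5 : 0 ≤ ∑ b, ∑ b', f b * sd e b.1 * (f b' * sd e b'.1) := by
        rw [← sum_mul_sum]
        exact mul_self_nonneg _
      have a6 : 0 ≤ ∑ b, ∑ b', f b * f b' * if b.1 = b'.1 ∧ b.2.1 = b'.2.1 ∧ b.2.2.1 = b'.2.2.1
          then w b.2.2.2 ⬝ᵥ w b'.2.2.2 else 0 := by
        have := uv_le (c := c + 1) h1 (fun f => (hγ f).trans (mul_le_mul_of_nonneg_right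
          (by linarith) (sum_nonneg fun _ _ => dnn _))) f
        exact le_of_mul_le_mul_left (by rw [mul_zero]; exact a2.trans this) (by positivity)
      have a7 := add_nonneg (add_nonneg (add_nonneg (mul_nonneg (show 0 ≤ 1 - φ / 2 by linarith) a4)
        (mul_nonneg (show 0 ≤ φ / 2 by linarith) a5)) (mul_nonneg (show 0 ≤ β / 2 by linarith) a3))
        (sub_nonneg.2 ((mul_le_mul_of_nonneg_left a1 (show 0 ≤ β / 2 by linarith)).trans
          ((mul_assoc _ _ _).symm.trans_le (mul_le_mul_of_nonneg_right β2 a6))))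
      refine a7.trans_eq ?_
      simp only [mul_sum, ← sum_add_distrib, ← sum_sub_distrib]
      exact sum_congr rfl fun b _ => sum_congr rfl fun b' _ => by ring)
  set y : (Fin 4 × L × Λ × ZMod k) × (Λ × M) → Ω × J → ℝ := fun p => vec ι p.1.1 p.1.2.1 fun x =>
    (a * H1 p.2 x.1 * H2 p.1.2.2.1 x.2) • w (p.1.2.2.2 + γ p.1.2.2.1 x.1.1.1) with hy
  have same : ∀ e p p', p.1.1 = p'.1.1 → y p ⬝ᵥ y p' + r e p.1 ⬝ᵥ r e p'.1 =
      1 + if p.1.2.1 = p'.1.2.1 ∧ p.1.2.2.1 = p'.1.2.2.1 ∧ p.2 = p'.2 then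
        2 * (k : ℝ) * ((if p.1.2.2.2 = p'.1.2.2.2 then (1 : ℝ) else 0) - 1 / (k : ℝ)) else 0 := by
    rintro e ⟨⟨g, l, x, s⟩, μ⟩ ⟨⟨g', l', x', s'⟩, μ'⟩ (rfl : g = g')
    have s1 : (sd e g : ℝ) * sd e g = 1 := by exact_mod_cast sd_self e g
    rw [hr]
    simp only [hy, vec_same h1, s1, true_and, smul_dotProduct, dotProduct_smul, smul_eq_mul]
    by_cases e1 : l = l'
    · rw [if_pos e1, Fintype.sum_prod_type]
      have e3 : ∀ z : {x // x ≠ o}, ∑ z', a * H1 μ' z * H2 x' z' * (a * H1 μ z * H2 x z' *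
          (w (s + γ x z.1.1) ⬝ᵥ w (s' + γ x' z.1.1))) = A * (H1 μ z * H1 μ' z) *
          (w (s + γ x z.1.1) ⬝ᵥ w (s' + γ x' z.1.1)) * ∑ z', H2 x z' * H2 x' z' := fun z => by
        rw [mul_sum]
        exact sum_congr rfl fun z' _ => by rw [← ha]; ring
      simp only [e3, hH2.orth, e1, true_and]
      by_cases e2 : x = x'
      · subst e2
        simp only [hw, add_left_inj, if_true, true_and, ← sum_mul, ← mul_sum]
        rw [sum_ne o fun z => H1 μ z * H1 μ' z, hH1.orth, hH1.one, hH1.one, Fintype.card_prod]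
        push_cast
        rw [← hn, ← hN, ← A2]
        split_ifs <;> ring
      · simp only [e2, if_false, false_and, mul_zero, sum_const_zero]
        ring
    · simp only [e1, if_false, false_and]
      ring
  refine asm (by rw [one_div_pos]; linarith) (by rw [div_lt_one (by linarith)]; linarith)
    (fun p => p.1.1) y (fun e p => r e p.1) (fun e p => ?_) (fun p p' e1 e2 => ?_)
    (fun p p' e1 => ?_) hm
  · rw [same e p p rfl]
    simp only [and_self, if_true, one_div_one_div]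
    field_simp
    ring
  · simp only [same _ p p' e2]
    refine ⟨_, ?_, fun _ => rfl⟩
    split_ifs with c1 c2
    · exact absurd (Prod.ext (Prod.ext e2 (Prod.ext c1.1 (Prod.ext c1.2.1 c2))) c1.2.2) e1
    · field_simp
      ring
    · ring
  · obtain ⟨z, z', hz⟩ := h2 _ _ e1 p.1.2.1 p'.1.2.1
    have u1 : uv w γ ι p.1 ⬝ᵥ uv w γ ι p'.1 = _ := vec_diff hz _ _
    have u2 : (y p ⬝ᵥ y p') ^ 2 = (A * (uv w γ ι p.1 ⬝ᵥ uv w γ ι p'.1)) ^ 2 := by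
      rw [u1, hy, vec_diff hz, smul_dotProduct, dotProduct_smul, smul_eq_mul, smul_eq_mul, ← ha]
      simp only [mul_pow, hH1.sq, hH2.sq]
      ring
    refine ⟨1 - φ - β * (uv w γ ι p.1 ⬝ᵥ uv w γ ι p'.1), ?_, fun e => ?_⟩
    · rw [u2, u1, hw]
      split_ifs
      · exact an1
      · exact an0
    · have s1 : (sd e p.1.1 : ℝ) * sd e p'.1.1 = if e = ax p.1.1 p'.1.1 then 1 else -1 := by
        exact_mod_cast sd_mul e _ _ e1
      rw [hr, s1, if_neg (c := _ ∧ _) (fun c => e1 c.1)]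
      split_ifs <;> ring

end main

end Pool.Agent.P.MP_c2263a_gt.Fix
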