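import Pool.Agent.P.MP_c2263a_gt.Fix.Gauge

/-! A gauge in which almost all members of the family have bounded total defect. -/

set_option autoImplicit false

namespace Pool.Agent.P.MP_c2263a_gt.Fix

open Finset Matrix

/-- rescaled frames and their defects -/
structure Df {ι : Type} [Fintype ι] [DecidableEq ι] {m n : ℕ} (ρ D : ℝ)
    (y : ι → Fin n → Fin m → ℝ) (Δ : ι → Fin n → ι → Fin n → ℝ) : Prop where
  gram : ∀ i a k b, y i a ⬝ᵥ y k b =
    (if i = k ∧ a = b then ρ else 0) + (if a = b then 1 else 0) - Δ i a k b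
  self : ∀ i a b, Δ i a i b = 0
  sq : ∀ i a k, ∑ c, Δ i a k c ^ 2 = 2 * Δ i a k a
  row : ∀ i a, ∑ k, Δ i a k a ≤ D

theorem orth_sq {n : ℕ} {O : Matrix (Fin n) (Fin n) ℝ} (h : O * Oᵀ = 1) (a : Fin n) :
    ∑ c, ((if a = c then 1 else 0) - O a c) ^ 2 = 2 * (1 - O a a) := by
  have h1 : ∑ c, O a c ^ 2 = 1 := by
    have := congrFun (congrFun h a) a
    rw [one_apply_eq, mul_apply] at this
    simpa only [transpose_apply, sq] using this
  have h2 : ∀ c, ((if a = c then 1 else 0) - O a c) ^ 2 =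
      (if a = c then 1 - 2 * O a c else 0) + O a c ^ 2 := fun c => by
    split_ifs <;> ring
  rw [sum_congr rfl fun c _ => h2 c, sum_add_distrib, sum_ite_eq, if_pos (mem_univ _), h1]
  ring

theorem orth_le {n : ℕ} {O : Matrix (Fin n) (Fin n) ℝ} (h : O * Oᵀ = 1) (a : Fin n) :
    0 ≤ 1 - O a a := by
  have := orth_sq h a
  have h0 : 0 ≤ ∑ c, ((if a = c then 1 else 0) - O a c) ^ 2 := sum_nonneg fun c _ => sq_nonneg _
  linarith

theorem gauge (n : ℕ) {α ε : ℝ} (h0 : 0 < α) (h1 : α < 1) (hε : 0 < ε) :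
    ∃ D : ℝ, 0 < D ∧ ∀ (ι : Type) [Fintype ι] [DecidableEq ι] (m : ℕ)
      (X : ι → Matrix (Fin m) (Fin n) ℝ), Fr α X → ∃ (s : Finset ι) (y : s → Fin n → Fin m → ℝ)
      (Δ : s → Fin n → s → Fin n → ℝ), Df (1 / α - 1) D y Δ ∧
      (1 - ε) * Fintype.card ι - 1 ≤ s.card := by
  classical
  obtain ⟨C, hC⟩ : ∃ C : ℝ, C = (n ^ 3 / α + n * α ^ 2 + 3 * n) / α ^ 3 := ⟨_, rfl⟩
  have C0 : 0 ≤ C := by rw [hC]; positivity
  have ha2 : α ^ 2 ≤ 1 := by nlinarith
  have ha3 : 0 < α ^ 3 := by positivity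
  have n0 : (0 : ℝ) ≤ n := Nat.cast_nonneg n
  refine ⟨C / ε + 1, by positivity, fun ι _ _ m X h => ?_⟩
  rcases isEmpty_or_nonempty ι with he | ⟨⟨j⟩⟩
  · exact ⟨∅, fun _ _ _ => 0, fun _ _ _ _ => 0, ⟨fun i => absurd i.2 (notMem_empty _),
      fun i => absurd i.2 (notMem_empty _), fun i => absurd i.2 (notMem_empty _),
      fun i => absurd i.2 (notMem_empty _)⟩, by simp⟩
  set H : ι → ι → Matrix (Fin n) (Fin n) ℝ :=
    fun i k => (X j)ᵀ * X i * ((X i)ᵀ * X k) * ((X k)ᵀ * X j) with hH
  set O : ι → ι → Matrix (Fin n) (Fin n) ℝ :=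
    fun i k => if i = j ∨ k = j ∨ i = k then 1 else (α ^ 3)⁻¹ • H i k with hO
  have Oo : ∀ i k, O i k * (O i k)ᵀ = 1 := fun i k => by
    simp only [hO]
    split_ifs with e
    · simp
    · simp only [not_or] at e
      have e1 : H i k * (H i k)ᵀ = (X j)ᵀ * X i * ((X i)ᵀ * X k * ((X k)ᵀ * X j * ((X j)ᵀ * X k)) *
          ((X k)ᵀ * X i)) * ((X i)ᵀ * X j) := by
        simp only [hH, transpose_mul, transpose_transpose, Matrix.mul_assoc]
      rw [transpose_smul, smul_mul_smul_comm, e1, h.iso k j e.2.1, Matrix.mul_smul, Matrix.mul_one,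
        Matrix.smul_mul, h.iso i k e.2.2, smul_smul, Matrix.mul_smul, Matrix.mul_one,
        Matrix.smul_mul, h.iso j i (Ne.symm e.1), smul_smul, smul_smul]
      rw [show (α ^ 3)⁻¹ * (α ^ 3)⁻¹ * (α ^ 2 * α ^ 2) * α ^ 2 = 1 by field_simp, one_smul]
  set d : ι → ℝ := fun i => ∑ k, ∑ a, (1 - O i k a a) with hd
  have d0 : ∀ i, 0 ≤ d i := fun i => sum_nonneg fun k _ => sum_nonneg fun a _ => orth_le (Oo i k) a
  have cn : ∀ p q : ι, (if p = q then 1 else α ^ 2) * n ≤ n := fun p q => by
    refine mul_le_of_le_one_left n0 ?_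
    split_ifs
    · exact le_rfl
    · exact ha2
  have d1 : ∀ i k, α ^ 3 * ∑ a, (1 - O i k a a) ≤ n * α ^ 3 - (H i k).trace +
      ((if i = j then (n : ℝ) else 0) + (if k = j then (n : ℝ) else 0) +
        if i = k then (n : ℝ) else 0) := by
    intro i k
    have p0 : ∀ p q : ι, (0 : ℝ) ≤ if p = q then (n : ℝ) else 0 := fun p q => by
      split_ifs
      · exact n0
      · exact le_rfl
    have p1 := mul_nonneg n0 ha3.le
    by_cases e : i = j ∨ k = j ∨ i = k
    · have e2 : O i k = 1 := if_pos e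
      simp only [e2, one_apply_eq, sub_self, sum_const_zero, mul_zero]
      rcases e with e | e | e
      · have : (H i k).trace ≤ n := by
          simp only [hH]
          rw [e, h.self, Matrix.one_mul, h.gg, trace_smul, trace_one, Fintype.card_fin]
          exact cn _ _
        rw [if_pos e]
        linarith [p0 k j, p0 i k]
      · have : (H i k).trace ≤ n := by
          simp only [hH]
          rw [e, h.self, Matrix.mul_one, h.gg, trace_smul, trace_one, Fintype.card_fin]
          exact cn _ _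
        rw [if_pos e]
        linarith [p0 i j, p0 i k]
      · have : (H i k).trace ≤ n := by
          simp only [hH]
          rw [e, h.self, Matrix.mul_one, h.gg, trace_smul, trace_one, Fintype.card_fin]
          exact cn _ _
        rw [if_pos e]
        linarith [p0 i j, p0 k j]
    · have e2 : O i k = (α ^ 3)⁻¹ • H i k := if_neg e
      have e3 : α ^ 3 * ∑ a, (1 - O i k a a) = n * α ^ 3 - (H i k).trace := by
        rw [sum_sub_distrib, sum_const, card_univ, Fintype.card_fin, nsmul_eq_mul,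
          show ∑ a, O i k a a = (O i k).trace from rfl, e2, trace_smul, smul_eq_mul]
        field_simp
      linarith [p0 i j, p0 k j, p0 i k]
  have d2 : ∑ i, d i ≤ C * Fintype.card ι := by
    have k1 := sum_le_sum fun i (_ : i ∈ univ) => sum_le_sum fun k (_ : k ∈ univ) => d1 i k
    have k2 := h.three h0 ha2 j
    have k3 : ∑ i : ι, ∑ _k : ι, (if i = j then (n : ℝ) else 0) = n * Fintype.card ι := by
      rw [sum_comm]
      simp [mul_comm]
    simp only [sum_add_distrib, sum_sub_distrib, k3, sum_ite_eq, sum_ite_eq', mem_univ, if_true,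
      ← mul_sum] at k1
    simp only [sum_const, card_univ, nsmul_eq_mul] at k1
    rw [hC, div_mul_eq_mul_div, le_div_iff₀ ha3]
    simp only [hd, sum_sub_distrib, sum_const, card_univ, nsmul_eq_mul]
    simp only [hH] at k1
    linarith
  set s : Finset ι := univ.filter fun i => i ≠ j ∧ d i ≤ C / ε + 1 with hs
  obtain ⟨σ, hσ⟩ : ∃ σ : ℝ, σ * σ = (α ^ 3)⁻¹ := ⟨√(α ^ 3)⁻¹, Real.mul_self_sqrt (by positivity)⟩
  refine ⟨s, fun i a r => σ * (X i * ((X i)ᵀ * X j)) r a,
    fun i a k b => (if a = b then 1 else 0) - O i k a b, ⟨fun i a k b => ?_, fun i a b => ?_,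
      fun i a k => ?_, fun i a => ?_⟩, ?_⟩
  · have e1 : ((fun r => σ * (X i * ((X i)ᵀ * X j)) r a) ⬝ᵥ
        fun r => σ * (X k * ((X k)ᵀ * X j)) r b) = (α ^ 3)⁻¹ * H i k a b := by
      have : H i k = (X i * ((X i)ᵀ * X j))ᵀ * (X k * ((X k)ᵀ * X j)) := by
        simp only [hH, transpose_mul, transpose_transpose, Matrix.mul_assoc]
      rw [this, mul_apply, ← hσ, mul_sum, dotProduct]
      exact sum_congr rfl fun r _ => by rw [transpose_apply]; ring
    have hi : i.1 ≠ j := (mem_filter.1 i.2).2.1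
    have hk : k.1 ≠ j := (mem_filter.1 k.2).2.1
    rw [e1]
    by_cases e : i = k
    · subst e
      have e2 : O i i = 1 := if_pos (Or.inr (Or.inr rfl))
      simp only [hH, e2]
      rw [h.self, Matrix.mul_one, h.iso j i hi.symm, Matrix.smul_apply, one_apply]
      simp only [true_and, smul_eq_mul]
      split_ifs
      · field_simp
        ring
      · ring
    · have e2 : O i k = (α ^ 3)⁻¹ • H i k :=
        if_neg (not_or.2 ⟨hi, not_or.2 ⟨hk, fun c => e (Subtype.ext c)⟩⟩)
      rw [e2, if_neg fun c => e c.1, Matrix.smul_apply, smul_eq_mul]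
      ring
  · have e2 : O i i = 1 := if_pos (Or.inr (Or.inr rfl))
    rw [e2, one_apply, sub_self]
  · rw [orth_sq (Oo i k), if_pos rfl]
  · refine le_trans ?_ (mem_filter.1 i.2).2.2
    simp only [if_true]
    rw [sum_coe_sort s fun k => 1 - O i k a a]
    refine (sum_le_sum_of_subset_of_nonneg (subset_univ _) fun k _ _ => orth_le (Oo i k) a).trans
      (sum_le_sum fun k _ => ?_)
    exact single_le_sum (f := fun a => 1 - O i k a a) (fun b _ => orth_le (Oo i k) b) (mem_univ a)
  · have k1 : ∑ _i : ι, (C / ε + 1) ≤ ∑ i, (d i + (if i ∈ s then C / ε + 1 else 0) +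
        if i = j then C / ε + 1 else 0) := by
      refine sum_le_sum fun i _ => ?_
      have p : 0 ≤ C / ε + 1 := by positivity
      have := d0 i
      split_ifs with e1 e2 e2
      · linarith
      · linarith
      · linarith
      · have : ¬ d i ≤ C / ε + 1 := fun c => e1 (mem_filter.2 ⟨mem_univ _, e2, c⟩)
        linarith [not_le.1 this]
    rw [sum_const, sum_add_distrib, sum_add_distrib, sum_ite_mem, univ_inter, sum_ite_eq',
      if_pos (mem_univ _), sum_const, card_univ, nsmul_eq_mul, nsmul_eq_mul] at k1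
    have k2 : C ≤ ε * (C / ε + 1) := by
      rw [mul_add, mul_div_cancel₀ _ hε.ne']
      linarith
    have k3 := mul_le_mul_of_nonneg_right k2 (Nat.cast_nonneg (α := ℝ) (Fintype.card ι))
    refine le_of_mul_le_mul_right ?_ (by positivity : 0 < C / ε + 1)
    linarith

end Pool.Agent.P.MP_c2263a_gt.Fix
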