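import Pool.Agent.P.MP_c2263a_gt.Fix.Center

/-! For small angles a slice has almost full rank. -/

set_option autoImplicit false

namespace Pool.Agent.P.MP_c2263a_gt.Fix

open Finset Matrix

variable {ι : Type} [Fintype ι] [DecidableEq ι] {m n : ℕ} {ρ D : ℝ}
  {y : ι → Fin n → Fin m → ℝ} {Δ : ι → Fin n → ι → Fin n → ℝ}

omit [DecidableEq ι] in
theorem mom (p : ι → ℝ) (u w : ι → Fin m → ℝ) : ∑ i, ∑ k, p i * p k * (u i ⬝ᵥ w k) ^ 2 =
    ∑ r, ∑ s, (∑ i, p i * (u i r * u i s)) * ∑ k, p k * (w k r * w k s) := by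
  simp only [sum_mul_sum, dotProduct, sq]
  simp only [mul_sum]
  symm
  calc _ = ∑ r, ∑ i, ∑ k, ∑ s, p i * (u i r * u i s) * (p k * (w k r * w k s)) :=
        sum_congr rfl fun r _ => sum_comm.trans (sum_congr rfl fun i _ => sum_comm)
    _ = ∑ i, ∑ k, ∑ r, ∑ s, p i * (u i r * u i s) * (p k * (w k r * w k s)) :=
        sum_comm.trans (sum_congr rfl fun i _ => sum_comm)
    _ = _ := sum_congr rfl fun i _ => sum_congr rfl fun k _ => sum_congr rfl fun r _ =>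
        sum_congr rfl fun s _ => by ring

omit [DecidableEq ι] in
theorem mom_le (p : ι → ℝ) (u w : ι → Fin m → ℝ) : 2 * ∑ i, ∑ k, p i * p k * (u i ⬝ᵥ w k) ^ 2 ≤
    ∑ i, ∑ k, p i * p k * (u i ⬝ᵥ u k) ^ 2 + ∑ i, ∑ k, p i * p k * (w i ⬝ᵥ w k) ^ 2 := by
  rw [mom, mom, mom, mul_sum, ← sum_add_distrib]
  refine sum_le_sum fun r _ => ?_
  rw [mul_sum, ← sum_add_distrib]
  refine sum_le_sum fun s _ => ?_
  nlinarith [sq_nonneg (∑ i, p i * (u i r * u i s) - ∑ k, p k * (w k r * w k s))]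

theorem Df.gsq (h : Df ρ D y Δ) (hρ : 0 ≤ ρ) {κ : ℝ} (hκ : ∀ i a k b, |err ρ y Δ i a k b| ≤ κ)
    (κ1 : κ ≤ 1) (i : ι) (a : Fin n) (k : ι) (b : Fin n) :
    |(cen y i a ⬝ᵥ cen y k b) ^ 2 - ((if i = k ∧ a = b then ρ ^ 2 else 0) + Δ i a k b ^ 2)| ≤
      κ * (2 * ρ + 5) := by
  have κ0 : 0 ≤ κ := (abs_nonneg _).trans (hκ i a k b)
  have e1 : (cen y i a ⬝ᵥ cen y k b) ^ 2 - ((if i = k ∧ a = b then ρ ^ 2 else 0) + Δ i a k b ^ 2) =
      err ρ y Δ i a k b * (2 * ((if i = k ∧ a = b then ρ else 0) - Δ i a k b) +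
        err ρ y Δ i a k b) := by
    unfold err
    split_ifs with e
    · rw [e.1, h.self]
      ring
    · ring
  rw [e1, abs_mul]
  refine mul_le_mul (hκ i a k b) ?_ (abs_nonneg _) κ0
  have a1 := abs_le.1 (h.abs i a k b)
  have a2 := abs_le.1 (hκ i a k b)
  rw [abs_le]
  split_ifs <;> constructor <;> linarith [a1.1, a1.2, a2.1, a2.2]

theorem Df.loc (h : Df ρ D y Δ) (hρ : 0 ≤ ρ) {κ e : ℝ} (hκ : ∀ i a k b, |err ρ y Δ i a k b| ≤ κ)
    (κ1 : κ ≤ 1) (he : ∀ i a k, Δ i a k a ≤ e) (he0 : 0 ≤ e) (hμ : 0 ≤ 2 - n * e) (p : ι → ℝ)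
    (hp : ∀ i, 0 ≤ p i) (a : Fin n) :
    (2 - n * e) * ∑ i, ∑ k, p i * p k * Δ i a k a ≤ (n - 1) * ρ ^ 2 * ∑ i, p i ^ 2 +
      2 * n * (κ * (2 * ρ + 5)) * (∑ i, p i) ^ 2 := by
  obtain ⟨b, -, hb⟩ := exists_max_image univ (fun b => ∑ i, ∑ k, p i * p k * Δ i b k b)
    ⟨a, mem_univ a⟩
  refine (mul_le_mul_of_nonneg_left (hb a (mem_univ a)) hμ).trans ?_
  have pp : ∀ i k, 0 ≤ p i * p k := fun i k => mul_nonneg (hp i) (hp k)
  have dg : ∀ c : ℝ, ∑ i, ∑ k, p i * p k * (if i = k then c else 0) = c * ∑ i, p i ^ 2 := by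
    intro c
    simp only [mul_ite, mul_zero, sum_ite_eq, mem_univ, if_true, mul_sum]
    exact sum_congr rfl fun i _ => by ring
  have cs : ∀ c : ℝ, ∑ i, ∑ k, p i * p k * c = c * (∑ i, p i) ^ 2 := by
    intro c
    simp only [← sum_mul, ← mul_sum]
    ring
  have up : ∀ c, ∑ i, ∑ k, p i * p k * (cen y i c ⬝ᵥ cen y k c) ^ 2 ≤ ρ ^ 2 * ∑ i, p i ^ 2 +
      e * ∑ i, ∑ k, p i * p k * Δ i b k b + κ * (2 * ρ + 5) * (∑ i, p i) ^ 2 := fun c => by
    refine le_trans ?_ (add_le_add (add_le_add le_rfl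
      (mul_le_mul_of_nonneg_left (hb c (mem_univ c)) he0)) le_rfl)
    rw [← dg, ← cs, mul_sum, ← sum_add_distrib, ← sum_add_distrib]
    refine sum_le_sum fun i _ => ?_
    rw [mul_sum, ← sum_add_distrib, ← sum_add_distrib]
    refine sum_le_sum fun k _ => ?_
    have a1 := (abs_le.1 (h.gsq hρ hκ κ1 i c k c)).2
    simp only [and_true] at a1
    have a2 := mul_le_mul_of_nonneg_right (he i c k) (h.nonneg i c k)
    have a3 := mul_le_mul_of_nonneg_left (show (cen y i c ⬝ᵥ cen y k c) ^ 2 ≤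
      (if i = k then ρ ^ 2 else 0) + e * Δ i c k c + κ * (2 * ρ + 5) by linarith) (pp i k)
    linarith
  have lo : ρ ^ 2 * ∑ i, p i ^ 2 + 2 * ∑ i, ∑ k, p i * p k * Δ i b k b ≤
      ∑ c, ∑ i, ∑ k, p i * p k * (cen y i b ⬝ᵥ cen y k c) ^ 2 +
        n * (κ * (2 * ρ + 5)) * (∑ i, p i) ^ 2 := by
    rw [sum_comm (f := fun c i => ∑ k, p i * p k * (cen y i b ⬝ᵥ cen y k c) ^ 2), ← dg, ← cs,
      mul_sum, ← sum_add_distrib, ← sum_add_distrib]
    refine sum_le_sum fun i _ => ?_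
    rw [sum_comm (f := fun c k => p i * p k * (cen y i b ⬝ᵥ cen y k c) ^ 2), mul_sum,
      ← sum_add_distrib, ← sum_add_distrib]
    refine sum_le_sum fun k _ => ?_
    have a1 := sum_le_sum fun c (_ : c ∈ univ) => (abs_le.1 (h.gsq hρ hκ κ1 i b k c)).1
    rw [sum_sub_distrib, sum_add_distrib, h.sq, sum_const, card_univ, Fintype.card_fin,
      nsmul_eq_mul] at a1
    simp only [ite_and, sum_ite_irrel, sum_ite_eq, mem_univ, if_true, sum_const_zero] at a1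
    rw [← mul_sum]
    have a3 := mul_le_mul_of_nonneg_left a1 (pp i k)
    linarith
  have mid := sum_le_sum fun c (_ : c ∈ univ) =>
    (mom_le p (fun i => cen y i b) fun i => cen y i c).trans (add_le_add (up b) (up c))
  rw [← mul_sum, sum_const, card_univ, Fintype.card_fin, nsmul_eq_mul] at mid
  linarith

theorem gap {ρ D η : ℝ} {n : ℕ} (hρ : 0 < ρ) (hD : 0 ≤ D) (hn : n * ρ < 2) (hη : 0 < η) :
    ∃ v0 : ℕ, ∀ (ι : Type) [Fintype ι] [DecidableEq ι] (m : ℕ) (y : ι → Fin n → Fin m → ℝ)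
      (Δ : ι → Fin n → ι → Fin n → ℝ) (_a : Fin n), v0 ≤ Fintype.card ι → Df ρ D y Δ →
      (Fintype.card ι : ℝ) - m ≤ η * Fintype.card ι := by
  have hN : 0 < 2 * ρ + 4 * D := by positivity
  have n0 : (0 : ℝ) ≤ n := Nat.cast_nonneg n
  obtain ⟨g, hg⟩ : ∃ g, g = ρ * (2 - n * ρ) * (ρ + 2) / 4 := ⟨_, rfl⟩
  have g0 : 0 < g := by
    have := sub_pos.2 hn
    rw [hg]
    positivity
  obtain ⟨t, ht⟩ := exists_nat_one_div_lt (show 0 < g * η / 2 / (2 * (2 * ρ + 4 * D)) by positivity)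
  obtain ⟨κ, κ0, κ1, κ2, κ3⟩ : ∃ κ : ℝ, 0 < κ ∧ κ ≤ 1 ∧ κ * (n * (ρ + 2 * n) ^ 2 + 1) ≤ g ∧
      κ * ((2 * n * (2 * ρ + 5) + 2) * (2 ^ t) ^ 2) ≤ g * η / 2 :=
    ⟨min 1 (min (g / (n * (ρ + 2 * n) ^ 2 + 1))
      (g * η / 2 / ((2 * n * (2 * ρ + 5) + 2) * (2 ^ t) ^ 2))), by positivity, min_le_left _ _,
      (le_div_iff₀ (by positivity)).1 ((min_le_right _ _).trans (min_le_left _ _)),
      (le_div_iff₀ (by positivity)).1 ((min_le_right _ _).trans (min_le_right _ _))⟩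
  obtain ⟨e, he⟩ : ∃ e, e = ρ ^ 2 / 2 + κ * (ρ + 2 * n) ^ 2 / (2 * ρ) := ⟨_, rfl⟩
  have e0 : 0 ≤ e := by rw [he]; positivity
  have e1 : ρ * (2 * e) = ρ ^ 3 + κ * (ρ + 2 * n) ^ 2 := by
    rw [he]
    field_simp
  have e2 : g ≤ (2 - n * e) * ρ - (n - 1) * ρ ^ 2 := by
    have : (n * e) * ρ = n * (ρ ^ 3 + κ * (ρ + 2 * n) ^ 2) / 2 := by rw [← e1]; ring
    nlinarith
  obtain ⟨v0, hv0⟩ := err_small hρ.le hD κ0
  refine ⟨v0, fun ι _ _ m y Δ a hv h => ?_⟩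
  have hκ := hv0 ι m n y Δ hv h
  have n1 : (1 : ℝ) ≤ n := by exact_mod_cast a.pos
  have hμ : 0 ≤ 2 - n * e := by
    refine le_of_mul_le_mul_right ?_ hρ
    nlinarith [mul_nonneg (sub_nonneg.2 n1) (sq_nonneg ρ)]
  have hμ2 : 2 - n * e ≤ 2 := sub_le_self _ (mul_nonneg n0 e0)
  have hE : ∀ i a k, Δ i a k a ≤ e := fun i a k => by
    have := h.entry hρ hκ i a k
    rw [← e1] at this
    linarith [le_of_mul_le_mul_left this hρ]
  have ok := h.ok hρ hD a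
  have key : ∀ x : ι → ℝ, g * (x ⬝ᵥ x) ≤ 2 * (2 * ρ + 4 * D) * (x ⬝ᵥ sli ρ D y a *ᵥ x) +
      κ * (2 * n * (2 * ρ + 5) + 2) * l1 x ^ 2 := fun x => by
    have k1 := h.loc hρ.le hκ κ1 hE e0 hμ (fun i => |x i|) (fun i => abs_nonneg _) a
    have k2 : ∑ i, |x i| ^ 2 = x ⬝ᵥ x := by simp only [dotProduct, sq, abs_mul_abs_self]
    have k3 : ρ * (x ⬝ᵥ x) - ∑ i, ∑ k, |x i| * |x k| * Δ i a k a - κ * l1 x ^ 2 ≤
        (2 * ρ + 4 * D) * (x ⬝ᵥ sli ρ D y a *ᵥ x) := by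
      rw [quad, l1, sq, sum_mul_sum, dotProduct, mul_sum, mul_sum, mul_sum, ← sum_sub_distrib,
        ← sum_sub_distrib]
      refine sum_le_sum fun i _ => ?_
      have : ρ * (x i * x i) = ∑ k, (if i = k then ρ else 0) * (x i * x k) := by simp
      rw [this, mul_sum, mul_sum, ← sum_sub_distrib, ← sum_sub_distrib]
      refine sum_le_sum fun k _ => ?_
      rw [sli_eq (Δ := Δ), mul_assoc (2 * ρ + 4 * D)⁻¹, mul_inv_cancel_left₀ hN.ne']
      have a1 : x i * x k ≤ |x i| * |x k| := (le_abs_self _).trans_eq (abs_mul _ _)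
      have a2 := mul_le_mul_of_nonneg_right a1 (h.nonneg i a k)
      have a3 : -(err ρ y Δ i a k a * (x i * x k)) ≤ κ * (|x i| * |x k|) := by
        refine (neg_le_abs _).trans ?_
        rw [abs_mul, abs_mul]
        exact mul_le_mul_of_nonneg_right (hκ i a k a) (by positivity)
      linarith
    rw [k2] at k1
    have k4 := mul_le_mul_of_nonneg_left k3 hμ
    have k5 := mul_le_mul_of_nonneg_right hμ2 (mul_nonneg hN.le (ok.psd x))
    have k6 := mul_le_mul_of_nonneg_right hμ2 (mul_nonneg κ0.le (sq_nonneg (l1 x)))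
    have k7 := mul_le_mul_of_nonneg_right e2
      (show 0 ≤ x ⬝ᵥ x from sum_nonneg fun _ _ => mul_self_nonneg _)
    unfold l1 at *
    linarith
  have k8 : ∀ i, ((1 - sli ρ D y a) ^ (2 * t)) i i ≤ η := fun i => by
    have b1 := key (((1 - sli ρ D y a) ^ t) *ᵥ Pi.single i 1)
    have b2 := ok.defect t (Pi.single i 1)
    have b3 := ok.l1_le t (Pi.single i 1)
    rw [show l1 (Pi.single i 1 : ι → ℝ) = 1 from sl i, mul_one] at b3
    have b4 := pow_le_pow_left₀ (sum_nonneg fun _ _ => abs_nonneg _) b3 2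
    rw [← ok.two, single_dotProduct, one_mul, mulVec_single_one] at b1
    rw [ss] at b2
    have b5 := mul_le_mul_of_nonneg_left b4
      (show 0 ≤ κ * (2 * n * (2 * ρ + 5) + 2) by positivity)
    rw [div_lt_div_iff₀ (by positivity) (by positivity)] at ht
    have b6 := mul_le_mul_of_nonneg_left b2 (show 0 ≤ 2 * (2 * ρ + 4 * D) by positivity)
    have b7 : 2 * (2 * ρ + 4 * D) * ((1 - sli ρ D y a) ^ t *ᵥ Pi.single i 1 ⬝ᵥ
        sli ρ D y a *ᵥ (1 - sli ρ D y a) ^ t *ᵥ Pi.single i 1) ≤ g * η / 2 :=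
      le_of_mul_le_mul_left (by linarith) (by positivity : (0 : ℝ) < t + 1)
    refine le_of_mul_le_mul_left (le_trans b1 ?_) g0
    unfold l1 at *
    linarith
  have k9 := (ok.trace_ge t).trans (sum_le_sum fun i _ => k8 i)
  rw [sum_const, card_univ, nsmul_eq_mul] at k9
  have : ((sli ρ D y a).rank : ℝ) ≤ m := by exact_mod_cast sli_rank ρ D y a
  linarith

end Pool.Agent.P.MP_c2263a_gt.Fix
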