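import Mathlib

/-! Holonomy of triangles in a large equi-isoclinic family is concentrated at the identity. -/

set_option autoImplicit false

namespace Pool.Agent.P.MP_c2263a_gt.Fix

open Finset Matrix

variable {ι : Type} [Fintype ι] [DecidableEq ι] {m n : ℕ} {α : ℝ}

/-- orthonormal frames of an equi-isoclinic family -/
structure Fr (α : ℝ) (X : ι → Matrix (Fin m) (Fin n) ℝ) : Prop where
  self : ∀ i, (X i)ᵀ * X i = 1
  iso : ∀ i j, i ≠ j → (X i)ᵀ * X j * ((X j)ᵀ * X i) = α ^ 2 • (1 : Matrix (Fin n) (Fin n) ℝ)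

theorem fro {a b : Type} [Fintype a] [Fintype b] (A : Matrix a b ℝ) :
    (A * Aᵀ).trace = ∑ i, ∑ j, A i j ^ 2 := by
  simp only [trace, Matrix.diag, mul_apply, transpose_apply, sq]

variable {X : ι → Matrix (Fin m) (Fin n) ℝ}

omit [Fintype ι] in
theorem Fr.gg (h : Fr α X) (i j : ι) : (X i)ᵀ * X j * ((X j)ᵀ * X i) =
    (if i = j then 1 else α ^ 2) • (1 : Matrix (Fin n) (Fin n) ℝ) := by
  split_ifs with e
  · subst e
    rw [h.self, one_smul, Matrix.mul_one]
  · exact h.iso i j e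

theorem Fr.var (h : Fr α X) (h1 : α ^ 2 ≤ 1) (x y : Fin m → ℝ) (hx : x ⬝ᵥ x = 1)
    (hy : y ⬝ᵥ y = 1) :
    Fintype.card ι * ∑ i, (x ⬝ᵥ (X i * (X i)ᵀ) *ᵥ y) ^ 2 - (∑ i, x ⬝ᵥ (X i * (X i)ᵀ) *ᵥ y) ^ 2 ≤
      n * Fintype.card ι := by
  rcases isEmpty_or_nonempty ι with he | he
  · simp
  have hv : (0 : ℝ) < Fintype.card ι := by exact_mod_cast Fintype.card_pos
  set w : ι → ℝ := fun i => x ⬝ᵥ (X i * (X i)ᵀ) *ᵥ y with hw
  set c : ι → ℝ := fun i => w i - (∑ i, w i) / Fintype.card ι with hc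
  have c0 : ∑ i, c i = 0 := by
    rw [hc, sum_sub_distrib, sum_const, card_univ, nsmul_eq_mul, mul_div_cancel₀ _ hv.ne', sub_self]
  have c1 : ∑ i, c i * w i = ∑ i, c i ^ 2 := by
    have : ∀ i, c i * w i = c i ^ 2 + c i * ((∑ i, w i) / Fintype.card ι) := fun i => by
      simp only [hc]
      ring
    rw [sum_congr rfl fun i _ => this i, sum_add_distrib, ← sum_mul, c0, zero_mul, add_zero]
  have c2 : Fintype.card ι * ∑ i, c i * w i =
      Fintype.card ι * ∑ i, w i ^ 2 - (∑ i, w i) ^ 2 := by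
    simp only [hc, sub_mul, sum_sub_distrib, ← mul_sum, ← sq]
    field_simp
  set T : Matrix (Fin m) (Fin m) ℝ := ∑ i, c i • (X i * (X i)ᵀ) with hT
  have t1 : ∑ i, c i * w i = ∑ q : Fin m × Fin m, T q.1 q.2 * (x q.1 * y q.2) := by
    have : x ⬝ᵥ T *ᵥ y = ∑ i, c i * w i := by
      rw [hT, sum_mulVec, dotProduct_sum]
      exact sum_congr rfl fun i _ => by rw [smul_mulVec, dotProduct_smul, smul_eq_mul]
    rw [← this, Fintype.sum_prod_type]
    simp only [dotProduct, mulVec, mul_sum]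
    exact sum_congr rfl fun i _ => sum_congr rfl fun j _ => by ring
  have t2 : ∑ q : Fin m × Fin m, (x q.1 * y q.2) ^ 2 = 1 := by
    rw [Fintype.sum_prod_type]
    simp only [mul_pow, ← mul_sum, ← sum_mul]
    simp only [dotProduct, ← sq] at hx hy
    rw [hx, hy, one_mul]
  have t3 : ∑ q : Fin m × Fin m, T q.1 q.2 ^ 2 = n * (1 - α ^ 2) * ∑ i, c i ^ 2 := by
    rw [Fintype.sum_prod_type, show (∑ a, ∑ b, T (a, b).1 (a, b).2 ^ 2) = _ from (fro T).symm, hT,
      transpose_sum, Matrix.sum_mul, trace_sum]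
    have e : ∀ i, (c i • (X i * (X i)ᵀ) * ∑ j, (c j • (X j * (X j)ᵀ))ᵀ).trace =
        n * (1 - α ^ 2) * c i ^ 2 := fun i => by
      rw [Matrix.mul_sum, trace_sum]
      have e2 : ∀ j, (c i • (X i * (X i)ᵀ) * (c j • (X j * (X j)ᵀ))ᵀ).trace =
          (if i = j then n * (1 - α ^ 2) * (c i * c j) else 0) + n * α ^ 2 * c i * c j := fun j => by
        rw [transpose_smul, transpose_mul, transpose_transpose, smul_mul_smul_comm, trace_smul,
          Matrix.mul_assoc, trace_mul_comm, Matrix.mul_assoc, Matrix.mul_assoc,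
          ← Matrix.mul_assoc, h.gg, trace_smul, trace_one, Fintype.card_fin]
        split_ifs <;> simp only [smul_eq_mul] <;> ring
      rw [sum_congr rfl fun j _ => e2 j, sum_add_distrib, ← mul_sum, c0, sum_ite_eq]
      simp [sq]
    rw [sum_congr rfl fun i _ => e i, mul_sum]
  have t4 := sum_mul_sq_le_sq_mul_sq univ (fun q : Fin m × Fin m => T q.1 q.2)
    fun q => x q.1 * y q.2
  rw [← t1, t2, t3, c1, mul_one] at t4
  have s0 : 0 ≤ ∑ i, c i ^ 2 := sum_nonneg fun i _ => sq_nonneg _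
  have n0 : (0 : ℝ) ≤ n := Nat.cast_nonneg n
  have s1 : ∑ i, c i ^ 2 ≤ n := by
    by_contra hc
    have := not_le.1 hc
    nlinarith [mul_nonneg (mul_nonneg n0 (sq_nonneg α)) s0]
  rw [← c2, c1, mul_comm]
  exact mul_le_mul_of_nonneg_right s1 hv.le

theorem Fr.four (h : Fr α X) (h1 : α ^ 2 ≤ 1) (j k : ι) :
    (Fintype.card ι : ℝ) ^ 2 * (n * α ^ 4) - n ^ 3 * Fintype.card ι ≤
      (((X j)ᵀ * (∑ i, X i * (X i)ᵀ) * X k) * ((X j)ᵀ * (∑ i, X i * (X i)ᵀ) * X k)ᵀ).trace := by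
  have col : ∀ i a, (fun r => X i r a) ⬝ᵥ (fun r => X i r a) = 1 := fun i a => by
    have := congrFun (congrFun (h.self i) a) a
    rwa [one_apply_eq] at this
  have ent : ∀ (P : Matrix (Fin m) (Fin m) ℝ) a b,
      (fun r => X j r a) ⬝ᵥ P *ᵥ (fun r => X k r b) = ((X j)ᵀ * P * X k) a b := fun P a b => by
    rw [Matrix.mul_assoc]
    rfl
  have k1 : ∀ a b, Fintype.card ι * ∑ i, ((X j)ᵀ * (X i * (X i)ᵀ) * X k) a b ^ 2 -
      ((X j)ᵀ * (∑ i, X i * (X i)ᵀ) * X k) a b ^ 2 ≤ n * Fintype.card ι := fun a b => by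
    have := h.var h1 _ _ (col j a) (col k b)
    simp only [ent] at this
    rwa [Matrix.mul_sum, Matrix.sum_mul, Matrix.sum_apply]
  have k2 := sum_le_sum fun a (_ : a ∈ univ) => sum_le_sum fun b (_ : b ∈ univ) => k1 a b
  simp only [sum_sub_distrib, ← mul_sum, sum_const, card_univ, Fintype.card_fin,
    nsmul_eq_mul] at k2
  rw [← fro] at k2
  have k3 : Fintype.card ι * (n * α ^ 4) ≤
      ∑ a, ∑ b, ∑ i, ((X j)ᵀ * (X i * (X i)ᵀ) * X k) a b ^ 2 := by
    rw [sum_congr rfl fun a _ => sum_comm, sum_comm, ← nsmul_eq_mul, ← card_univ, ← sum_const]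
    refine sum_le_sum fun i _ => ?_
    have e : (X j)ᵀ * (X i * (X i)ᵀ) * X k * ((X j)ᵀ * (X i * (X i)ᵀ) * X k)ᵀ =
        (X j)ᵀ * X i * ((X i)ᵀ * X k * ((X k)ᵀ * X i)) * ((X i)ᵀ * X j) := by
      simp only [transpose_mul, transpose_transpose, Matrix.mul_assoc]
    rw [← fro, e, h.gg, Matrix.mul_smul, Matrix.mul_one, Matrix.smul_mul, h.gg, trace_smul,
      trace_smul, trace_one, Fintype.card_fin, smul_eq_mul, smul_eq_mul]
    have n0 : (0 : ℝ) ≤ n := Nat.cast_nonneg n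
    have a1 : ∀ p q : ι, α ^ 2 ≤ if p = q then 1 else α ^ 2 := fun p q => by
      split_ifs
      · exact h1
      · exact le_rfl
    have := mul_le_mul (a1 i k) (mul_le_mul_of_nonneg_right (a1 j i) n0)
      (by positivity) ((sq_nonneg α).trans (a1 _ _))
    linarith
  have k4 := mul_le_mul_of_nonneg_left k3 (Nat.cast_nonneg (α := ℝ) (Fintype.card ι))
  linarith

theorem Fr.op (h : Fr α X) (h0 : 0 < α) (z : Fin m → ℝ) :
    z ⬝ᵥ (∑ i, X i * (X i)ᵀ) *ᵥ z ≤ (1 + α * Fintype.card ι) * (z ⬝ᵥ z) := by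
  have nn : ∀ {p : ℕ} (x : Fin p → ℝ), 0 ≤ x ⬝ᵥ x := fun x =>
    sum_nonneg fun i _ => mul_self_nonneg _
  set ξ : ι → Fin n → ℝ := fun i => (X i)ᵀ *ᵥ z with hξ
  set u : Fin m → ℝ := (∑ i, X i * (X i)ᵀ) *ᵥ z with hu
  have adj : ∀ i (x : Fin m → ℝ) (y : Fin n → ℝ), x ⬝ᵥ X i *ᵥ y = (X i)ᵀ *ᵥ x ⬝ᵥ y :=
    fun i x y => by rw [dotProduct_mulVec, mulVec_transpose]
  have u1 : u = ∑ i, X i *ᵥ ξ i := by
    rw [hu, sum_mulVec]
    exact sum_congr rfl fun i _ => (mulVec_mulVec _ _ _).symm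
  have u2 : z ⬝ᵥ u = ∑ i, ξ i ⬝ᵥ ξ i := by
    rw [u1, dotProduct_sum]
    exact sum_congr rfl fun i _ => adj i _ _
  have u3 : u ⬝ᵥ u ≤ (1 + α * Fintype.card ι) * ∑ i, ξ i ⬝ᵥ ξ i := by
    calc _ = ∑ i, ∑ k, X i *ᵥ ξ i ⬝ᵥ X k *ᵥ ξ k := by
          rw [u1, sum_dotProduct]
          exact sum_congr rfl fun i _ => dotProduct_sum _ _ _
      _ ≤ ∑ i, ∑ k, ((if i = k then ξ i ⬝ᵥ ξ i else 0) + α / 2 * (ξ i ⬝ᵥ ξ i) +
            α / 2 * (ξ k ⬝ᵥ ξ k)) := by
          refine sum_le_sum fun i _ => sum_le_sum fun k _ => ?_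
          rw [adj, mulVec_mulVec]
          have b1 := mul_nonneg h0.le (nn (ξ i))
          split_ifs with e
          · subst e
            rw [h.self, one_mulVec]
            linarith
          · set p := ((X k)ᵀ * X i) *ᵥ ξ i with hp
            have b2 : p ⬝ᵥ p = α ^ 2 * (ξ i ⬝ᵥ ξ i) := by
              rw [hp, dotProduct_mulVec, ← mulVec_transpose, mulVec_mulVec, transpose_mul,
                transpose_transpose, h.iso i k e, smul_mulVec, one_mulVec, smul_dotProduct,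
                smul_eq_mul]
            have b3 := nn (p - α • ξ k)
            rw [sub_dotProduct, dotProduct_sub, dotProduct_sub, b2, dotProduct_smul,
              smul_dotProduct, smul_dotProduct, dotProduct_smul, dotProduct_comm (ξ k) p] at b3
            simp only [smul_eq_mul] at b3
            refine le_of_mul_le_mul_left ?_ h0
            linarith
      _ = _ := by
          simp only [sum_add_distrib, sum_ite_eq, mem_univ, if_true, sum_const, card_univ,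
            nsmul_eq_mul, ← mul_sum]
          ring
  have hL : 0 < 1 + α * Fintype.card ι := by positivity
  have b3 := nn (u - (1 + α * Fintype.card ι) • z)
  rw [sub_dotProduct, dotProduct_sub, dotProduct_sub, dotProduct_smul,
    smul_dotProduct, smul_dotProduct, dotProduct_smul, dotProduct_comm u z] at b3
  simp only [smul_eq_mul] at b3
  rw [← u2] at u3
  refine le_of_mul_le_mul_left ?_ hL
  linarith

theorem Fr.three (h : Fr α X) (h0 : 0 < α) (h1 : α ^ 2 ≤ 1) (j : ι) :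
    n * α ^ 3 * (Fintype.card ι : ℝ) ^ 2 - (n ^ 3 / α + n * α ^ 2) * Fintype.card ι ≤
      ∑ i, ∑ k, ((X j)ᵀ * X i * ((X i)ᵀ * X k) * ((X k)ᵀ * X j)).trace := by
  set S := ∑ i, X i * (X i)ᵀ with hS
  have St : Sᵀ = S := by
    rw [hS, transpose_sum]
    exact sum_congr rfl fun i _ => by rw [transpose_mul, transpose_transpose]
  have e1 : ∑ i, ∑ k, ((X j)ᵀ * X i * ((X i)ᵀ * X k) * ((X k)ᵀ * X j)).trace =
      ((S * X j)ᵀ * (S * X j)).trace := by
    rw [transpose_mul, St, hS]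
    simp only [Matrix.mul_sum, Matrix.sum_mul, trace_sum, Matrix.mul_assoc]
    exact sum_comm
  have e2 : ∑ k, (((X j)ᵀ * S * X k) * ((X j)ᵀ * S * X k)ᵀ).trace =
      ((S * X j)ᵀ * (S * (S * X j))).trace := by
    have : (S * X j)ᵀ * (S * (S * X j)) = ∑ k, (S * X j)ᵀ * (X k * (X k)ᵀ * (S * X j)) := by
      rw [← Matrix.mul_sum, ← Matrix.sum_mul]
    rw [this, trace_sum]
    simp only [transpose_mul, St, transpose_transpose, Matrix.mul_assoc]
  have e3 : ((S * X j)ᵀ * (S * (S * X j))).trace ≤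
      (1 + α * Fintype.card ι) * ((S * X j)ᵀ * (S * X j)).trace := by
    rw [trace, trace, mul_sum]
    exact sum_le_sum fun a _ => h.op h0 fun r => (S * X j) r a
  have e4 := sum_le_sum fun k (_ : k ∈ univ) => h.four h1 j k
  rw [e2, sum_const, card_univ, nsmul_eq_mul] at e4
  rw [e1]
  have hv : (0 : ℝ) ≤ Fintype.card ι := Nat.cast_nonneg _
  have hL : 0 < 1 + α * Fintype.card ι := by positivity
  refine le_of_mul_le_mul_left (le_trans ?_ (e4.trans e3)) hL
  have e : (1 + α * Fintype.card ι) * (n * α ^ 3 * (Fintype.card ι : ℝ) ^ 2 -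
      (n ^ 3 / α + n * α ^ 2) * Fintype.card ι) = Fintype.card ι * ((Fintype.card ι : ℝ) ^ 2 *
      (n * α ^ 4) - n ^ 3 * Fintype.card ι) - (n ^ 3 / α + n * α ^ 2) * Fintype.card ι := by
    field_simp
    ring
  rw [e]
  exact sub_le_self _ (by positivity)

end Pool.Agent.P.MP_c2263a_gt.Fix
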