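import Pool.Agent.P.MP_c2263a_gt.Fix.Had

/-! Simplex vectors and a shift pattern of small norm. -/

set_option autoImplicit false

namespace Pool.Agent.P.MP_c2263a_gt.Fix

open Finset Matrix
open scoped MatrixOrder

theorem dnn {J : Type} [Fintype J] (x : J → ℝ) : 0 ≤ x ⬝ᵥ x :=
  sum_nonneg fun _ _ => mul_self_nonneg _

theorem gram_of_psd {T : Type} [Fintype T] [DecidableEq T] (R : T → T → ℝ)
    (hs : ∀ i j, R i j = R j i) (hp : ∀ f : T → ℝ, 0 ≤ ∑ i, ∑ j, f i * f j * R i j) :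
    ∃ r : T → T → ℝ, ∀ i j, r i ⬝ᵥ r j = R i j := by
  have h : (Matrix.of R).PosSemidef := posSemidef_iff_dotProduct_mulVec.2
    ⟨Matrix.ext fun i j => by simpa using hs j i, fun x => by
      refine (hp x).trans_eq ?_
      simp only [star_trivial, dotProduct, mulVec, of_apply, mul_sum]
      exact sum_congr rfl fun i _ => sum_congr rfl fun j _ => by ring⟩
  obtain ⟨B, hB⟩ := CStarAlgebra.nonneg_iff_eq_star_mul_self.mp h.nonneg
  exact ⟨fun i c => B c i, fun i j => (congrFun (congrFun hB i) j).symm⟩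

theorem simplex (S : Type) [Fintype S] [DecidableEq S] {d : ℕ} (hd : 0 < d)
    (hS : Fintype.card S = d + 1) :
    ∃ w : S → Fin d → ℝ, ∀ s t, w s ⬝ᵥ w t = (if s = t then 1 else 0) - 1 / (d + 1 : ℝ) := by
  let e : S ≃ Option (Fin d) := Fintype.equivOfCardEq (by simp [hS])
  obtain ⟨c, hc⟩ : ∃ c : ℝ, c * c = 1 / (d + 1) := ⟨√(1 / (d + 1)), Real.mul_self_sqrt (by positivity)⟩
  have d0 : (d : ℝ) ≠ 0 := by exact_mod_cast hd.ne'
  obtain ⟨b, hb⟩ : ∃ b : ℝ, b * d = 1 - c := ⟨(1 - c) / d, div_mul_cancel₀ _ d0⟩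
  have h1 : d * (c * c) = 1 - c * c := by
    rw [hc]
    field_simp
    ring
  have h2 : b * (1 + c) = c * c := by
    refine mul_right_cancel₀ d0 ?_
    linear_combination (1 + c) * hb - h1
  refine ⟨fun s j => (e s).elim (-c) fun i => (if i = j then 1 else 0) - b, fun s t => ?_⟩
  rw [← hc, if_congr e.injective.eq_iff.symm rfl rfl]
  dsimp only
  rcases e s with _ | i <;> rcases e t with _ | j <;>
    simp only [dotProduct, Option.elim, mul_sub, sub_mul, sum_sub_distrib, mul_ite, ite_mul,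
      mul_one, one_mul, mul_zero, zero_mul, sum_ite_eq, mem_univ, if_true, sum_const, card_univ,
      Fintype.card_fin, nsmul_eq_mul, reduceCtorEq, if_false, Option.some.injEq]
  · linear_combination h1
  · linear_combination c * hb
  · linear_combination c * hb
  · by_cases e' : i = j
    · simp only [e', if_true]
      linear_combination b * hb - h2
    · simp only [e', Ne.symm e', if_false]
      linear_combination b * hb - h2

theorem two_step {J : Type} [Fintype J] (a b c : J → ℝ) {δ : ℝ} (δ1 : δ ≤ 4)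
    (h1 : c ⬝ᵥ c = b ⬝ᵥ b) (h2 : δ * (b ⬝ᵥ b) ≤ (b - c) ⬝ᵥ (b - c)) :
    (a + b) ⬝ᵥ (a + b) + (a + c) ⬝ᵥ (a + c) ≤ (4 - δ / 4) * (a ⬝ᵥ a + b ⬝ᵥ b) := by
  have h3 := dnn ((2 - δ / 4) • a - (b + c))
  simp only [add_dotProduct, dotProduct_add, sub_dotProduct, dotProduct_sub, smul_dotProduct,
    dotProduct_smul, smul_eq_mul, dotProduct_comm b a, dotProduct_comm c a, dotProduct_comm c b,
    h1] at h2 h3 ⊢
  refine le_of_mul_le_mul_left ?_ (show 0 < 2 - δ / 4 by linarith)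
  nlinarith [mul_nonneg (sq_nonneg δ) (dnn b)]

variable {k : ℕ} [NeZero k] {J : Type} [Fintype J]

/-- a shifted combination of simplex vectors -/
def ps (w : ZMod k → J → ℝ) (f : ZMod k → ℝ) (γ : ZMod k) : J → ℝ := ∑ s, f s • w (s + γ)

omit [Fintype J] in
theorem ps_add (w : ZMod k → J → ℝ) (f g : ZMod k → ℝ) (γ : ZMod k) :
    ps w (f + g) γ = ps w f γ + ps w g γ := by
  simp only [ps, Pi.add_apply, add_smul, sum_add_distrib]

omit [Fintype J] in
theorem ps_shift (w : ZMod k → J → ℝ) (f : ZMod k → ℝ) (γ : ZMod k) :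
    ps w (fun s => f (s - 1)) γ = ps w f (1 + γ) := by
  unfold ps
  rw [← Equiv.sum_comp (Equiv.addRight (1 : ZMod k))]
  simp [add_assoc]

variable {w : ZMod k → J → ℝ}

theorem ps_dot (hw : ∀ s t, w s ⬝ᵥ w t = (if s = t then 1 else 0) - 1 / (k : ℝ))
    (f g : ZMod k → ℝ) (γ : ZMod k) :
    ps w f γ ⬝ᵥ ps w g γ = ∑ s, f s * g s - (∑ s, f s) * (∑ s, g s) / k := by
  unfold ps
  simp only [sum_dotProduct, dotProduct_sum, smul_dotProduct, dotProduct_smul, hw, smul_eq_mul,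
    add_left_inj, mul_sub, sum_sub_distrib, mul_ite, mul_one, mul_zero, sum_ite_eq',
    mem_univ, if_true, ← mul_sum, ← sum_mul]
  simp only [mul_comm (g _)]
  ring

theorem poinc (hw : ∀ s t, w s ⬝ᵥ w t = (if s = t then 1 else 0) - 1 / (k : ℝ))
    (f : ZMod k → ℝ) : 1 / (k : ℝ) ^ 3 * (ps w f 0 ⬝ᵥ ps w f 0) ≤
      (ps w f 0 - ps w f 1) ⬝ᵥ (ps w f 0 - ps w f 1) := by
  have k0 : (0 : ℝ) < k := by exact_mod_cast NeZero.pos k
  have e1 : ps w f 0 - ps w f 1 = ps w (fun s => f s - f (s - 1)) 0 := by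
    rw [sub_eq_iff_eq_add, ← add_zero (1 : ZMod k), ← ps_shift, ← ps_add]
    congr 1
    funext s
    simp
  have e2 : ∑ s, (f s - f (s - 1)) = 0 := by
    rw [sum_sub_distrib, sub_eq_zero]
    exact ((Equiv.subRight (1 : ZMod k)).sum_comp f).symm
  rw [e1, ps_dot hw, ps_dot hw, e2, zero_mul, zero_div, sub_zero]
  obtain ⟨D, D0, hD⟩ : ∃ D : ℝ, 0 ≤ D ∧ D ^ 2 = ∑ s, (f s - f (s - 1)) * (f s - f (s - 1)) :=
    ⟨_, Real.sqrt_nonneg _, Real.sq_sqrt (sum_nonneg fun _ _ => mul_self_nonneg _)⟩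
  have s1 : ∀ s, |f s - f (s - 1)| ≤ D := fun s => abs_le_of_sq_le_sq (by
    rw [hD, sq]
    exact single_le_sum (f := fun s => (f s - f (s - 1)) * (f s - f (s - 1)))
      (fun _ _ => mul_self_nonneg _) (mem_univ s)) D0
  have s2 : ∀ j : ℕ, |f j - f 0| ≤ j * D := fun j => by
    induction j with
    | zero => simp
    | succ j ih =>
      have := s1 ((j : ZMod k) + 1)
      rw [add_sub_cancel_right] at this
      push_cast
      linarith [abs_sub_le (f (j + 1)) (f j) (f 0)]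
  have s3 : ∀ s, (f s - f 0) ^ 2 ≤ (k * D) ^ 2 := fun s => by
    have := s2 s.val
    rw [ZMod.natCast_zmod_val] at this
    have h : (s.val : ℝ) ≤ k := by exact_mod_cast (ZMod.val_lt s).le
    exact sq_le_sq' (by linarith [neg_abs_le (f s - f 0), mul_le_mul_of_nonneg_right h D0])
      (by linarith [le_abs_self (f s - f 0), mul_le_mul_of_nonneg_right h D0])
  have s4 := sum_le_sum fun s (_ : s ∈ univ) => s3 s
  simp only [sub_sq, sum_add_distrib, sum_sub_distrib, sum_const, card_univ, ZMod.card,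
    nsmul_eq_mul, ← sum_mul, ← mul_sum] at s4
  have s5 : 0 ≤ (∑ s, f s - k * f 0) ^ 2 / k := by positivity
  have s6 : (∑ s, f s - k * f 0) ^ 2 / k =
      (∑ s, f s) * (∑ s, f s) / k - 2 * (∑ s, f s) * f 0 + k * f 0 ^ 2 := by
    field_simp
    ring
  rw [← hD, one_div, inv_mul_le_iff₀ (by positivity)]
  simp only [← sq] at s6 ⊢
  linarith

theorem pattern (hw : ∀ s t, w s ⬝ᵥ w t = (if s = t then 1 else 0) - 1 / (k : ℝ)) (t : ℕ) :
    ∃ (Λ : Type) (_ : Fintype Λ) (γ : Λ → Λ → ZMod k), Fintype.card Λ = 2 ^ t ∧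
      ∀ f : Λ → ZMod k → ℝ, ∑ b, (∑ a, ps w (f a) (γ a b)) ⬝ᵥ (∑ a, ps w (f a) (γ a b)) ≤
        (4 - 1 / (k : ℝ) ^ 3 / 4) ^ t * ∑ a, ps w (f a) 0 ⬝ᵥ ps w (f a) 0 := by
  have k1 : (1 : ℝ) ≤ k := by exact_mod_cast NeZero.pos k
  have δ1 : 1 / (k : ℝ) ^ 3 ≤ 1 := by
    rw [div_le_one (by positivity)]
    exact one_le_pow₀ k1
  induction t with
  | zero => exact ⟨Unit, inferInstance, fun _ _ => 0, rfl, fun f => by simp⟩
  | succ t ih =>
    obtain ⟨Λ, _, γ, hc, h⟩ := ih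
    refine ⟨Bool × Λ, inferInstance,
      fun a b => if a.1 && b.1 then 1 + γ a.2 b.2 else γ a.2 b.2,
      by rw [Fintype.card_prod, hc, Fintype.card_bool, pow_succ'], fun f => ?_⟩
    have h1 := h fun a => f (false, a) + f (true, a)
    have h2 := h fun a => f (false, a) + fun s => f (true, a) (s - 1)
    simp only [ps_add, ps_shift, sum_add_distrib, add_zero] at h1 h2
    simp only [Fintype.sum_prod_type, Fintype.sum_bool, Bool.and_true, Bool.and_false,
      Bool.false_eq_true, if_false, if_true]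
    have h3 := sum_le_sum fun a (_ : a ∈ univ) => two_step (ps w (f (false, a)) 0)
      (ps w (f (true, a)) 0) (ps w (f (true, a)) 1) (δ := 1 / (k : ℝ) ^ 3) (by linarith)
      (by rw [ps_dot hw, ps_dot hw]) (poinc hw _)
    rw [sum_add_distrib, ← mul_sum, sum_add_distrib] at h3
    have h4 := mul_le_mul_of_nonneg_left h3
      (pow_nonneg (show 0 ≤ 4 - 1 / (k : ℝ) ^ 3 / 4 by linarith) t)
    simp only [add_comm (∑ a, ps w (f (true, a)) _)]
    rw [pow_succ]
    linarith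

end Pool.Agent.P.MP_c2263a_gt.Fix
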