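import Pool.Agent.P.MP_c2263a_gt.Fix.Gap

/-! The upper bounds for equi-isoclinic families with a fixed angle. -/

set_option autoImplicit false

namespace Pool.Agent.P.MP_c2263a_gt.Fix

open Finset Matrix

theorem frames {ι : Type} {m n : ℕ} {α : ℝ} (U : ι → Submodule ℝ (EuclideanSpace ℝ (Fin m)))
    (hU : ∀ i, Module.finrank ℝ (U i) = n)
    (h : ∀ i j, i ≠ j → ∀ u ∈ U i, ‖(U j).starProjection u‖ ^ 2 = α ^ 2 * ‖u‖ ^ 2) :
    ∃ X : ι → Matrix (Fin m) (Fin n) ℝ, Fr α X := by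
  let b : ∀ i, OrthonormalBasis (Fin n) ℝ (U i) := fun i =>
    (stdOrthonormalBasis ℝ (U i)).reindex (finCongr (hU i))
  have ent : ∀ i j a c, ((of fun r a => (b i a : EuclideanSpace ℝ (Fin m)) r)ᵀ *
      (of fun r a => (b j a : EuclideanSpace ℝ (Fin m)) r)) a c =
      inner ℝ (b j c : EuclideanSpace ℝ (Fin m)) (b i a) := fun i j a c => by
    simp only [mul_apply, transpose_apply, of_apply, PiLp.inner_apply, RCLike.inner_apply,
      conj_trivial]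
  have on : ∀ i a c, inner ℝ (b i a : EuclideanSpace ℝ (Fin m)) (b i c) = if a = c then 1 else 0 :=
    fun i a c => orthonormal_iff_ite.1 (b i).orthonormal a c
  have pr : ∀ j (u : EuclideanSpace ℝ (Fin m)),
      ∑ c, inner ℝ (b j c : EuclideanSpace ℝ (Fin m)) u ^ 2 = ‖(U j).starProjection u‖ ^ 2 := by
    intro j u
    have := (b j).sum_sq_inner_right ⟨_, (U j).starProjection_apply_mem u⟩
    refine Eq.trans (sum_congr rfl fun c _ => ?_) this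
    rw [Submodule.coe_inner, ← Submodule.inner_starProjection_left_eq_right,
      Submodule.starProjection_eq_self_iff.2 (b j c).2]
  refine ⟨fun i => of fun r a => (b i a : EuclideanSpace ℝ (Fin m)) r, fun i => ?_,
    fun i j e => ?_⟩
  · ext a c
    rw [ent, on, one_apply]
    simp only [eq_comm]
  · ext a c
    have h1 := (pr j _).trans (h i j e _ (b i a).2)
    have h2 := (pr j _).trans (h i j e _ (b i c).2)
    have h3 := (pr j _).trans (h i j e _ ((U i).add_mem (b i a).2 (b i c).2))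
    rw [norm_add_sq_real, on] at h3
    simp only [inner_add_right, add_sq, sum_add_distrib, mul_assoc, ← mul_sum] at h3
    rw [mul_apply, Matrix.smul_apply, one_apply, smul_eq_mul]
    simp only [ent]
    rw [sum_congr rfl fun d _ => by rw [real_inner_comm (b j d : EuclideanSpace ℝ (Fin m)) (b i c)]]
    linarith

theorem upper_of {n : ℕ} {α θ ε : ℝ} (h0 : 0 < α) (h1 : α < 1) (θ0 : 0 ≤ θ) (θ1 : θ ≤ 1 / 2)
    (hε : 0 < ε) (H : ∀ D η : ℝ, 0 < D → 0 < η → ∃ v0 : ℕ,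
      ∀ (ι : Type) [Fintype ι] [DecidableEq ι] (m : ℕ) (y : ι → Fin n → Fin m → ℝ)
        (Δ : ι → Fin n → ι → Fin n → ℝ), v0 ≤ Fintype.card ι → Df (1 / α - 1) D y Δ →
        (Fintype.card ι : ℝ) - m ≤ (θ + η) * Fintype.card ι) :
    ∃ m0 : ℕ, ∀ m, m0 ≤ m → ∀ (v : ℕ) (X : Fin v → Matrix (Fin m) (Fin n) ℝ), Fr α X →
      (v : ℝ) ≤ (1 / (1 - θ) + ε) * m := by
  obtain ⟨δ, δ0, δ1, δ2⟩ : ∃ δ : ℝ, 0 < δ ∧ δ ≤ 1 / 8 ∧ δ * (6 * (2 + ε)) ≤ ε :=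
    ⟨min (1 / 8) (ε / (6 * (2 + ε))), by positivity, min_le_left _ _,
      (le_div_iff₀ (by positivity)).1 (min_le_right _ _)⟩
  obtain ⟨D, D0, hD⟩ := gauge n h0 h1 δ0
  obtain ⟨v0, hv0⟩ := H D δ D0 δ0
  obtain ⟨v1, hv1⟩ := exists_nat_gt (1 / δ)
  have c0 : 0 < 1 - θ := by linarith
  have c1 : 1 ≤ 1 / (1 - θ) := by
    rw [le_div_iff₀ c0]
    linarith
  have c2 : 1 / (1 - θ) ≤ 2 := by
    rw [div_le_iff₀ c0]
    linarith
  refine ⟨2 * v0 + v1, fun m hm v X h => ?_⟩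
  have m0 : (0 : ℝ) ≤ m := Nat.cast_nonneg m
  by_cases hv : v ≤ m
  · have : (v : ℝ) ≤ m := by exact_mod_cast hv
    nlinarith
  have a1 : 2 * (v0 : ℝ) + v1 ≤ v := by exact_mod_cast hm.trans (not_le.1 hv).le
  have a2 : (0 : ℝ) ≤ v0 := Nat.cast_nonneg _
  have a0 : (0 : ℝ) ≤ v := Nat.cast_nonneg _
  have a3 : 1 ≤ δ * v := by
    rw [div_lt_iff₀ δ0] at hv1
    nlinarith
  obtain ⟨s, y, Δ, hDf, hs⟩ := hD (Fin v) m X h
  rw [Fintype.card_fin] at hs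
  have a4 : (1 - 2 * δ) * v ≤ s.card := by linarith
  have a5 : v0 ≤ Fintype.card s := by
    rw [Fintype.card_coe]
    have : (v0 : ℝ) ≤ s.card := by
      have : (0 : ℝ) ≤ v1 := Nat.cast_nonneg _
      nlinarith
    exact_mod_cast this
  have a6 := hv0 s m y Δ a5 hDf
  rw [Fintype.card_coe] at a6
  have a7 : (1 - θ - 3 * δ) * v ≤ m := by
    have := mul_le_mul_of_nonneg_left a4 (show 0 ≤ 1 - θ - δ by linarith)
    nlinarith [mul_nonneg (mul_nonneg δ0.le (add_nonneg θ0 δ0.le)) a0]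
  have a8 : 1 ≤ (1 / (1 - θ) + ε) * (1 - θ - 3 * δ) := by
    have : 1 / (1 - θ) * (1 - θ) = 1 := one_div_mul_cancel c0.ne'
    nlinarith
  have a9 := mul_le_mul_of_nonneg_left a7 (show 0 ≤ 1 / (1 - θ) + ε by linarith)
  nlinarith

theorem upper_k {n k : ℕ} {α ε : ℝ} (hn : 1 ≤ n) (h0 : 0 < α) (h1 : α < 1) (hk : 2 ≤ k)
    (hα : (k : ℝ) - 2 < (1 - α) / (2 * α) ∨ (k : ℝ) - 2 < 2 * α / (1 - α)) (hε : 0 < ε) :
    ∃ m0 : ℕ, ∀ m, m0 ≤ m → ∀ (v : ℕ) (X : Fin v → Matrix (Fin m) (Fin n) ℝ), Fr α X →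
      (v : ℝ) ≤ (1 + 1 / (k - 1) + ε) * m := by
  have hk2 : (2 : ℝ) ≤ k := by exact_mod_cast hk
  have e : (1 : ℝ) + 1 / (k - 1) = 1 / (1 - 1 / k) := by
    have : (k : ℝ) - 1 ≠ 0 := by linarith
    field_simp
    ring
  obtain ⟨ρ, hρ⟩ : ∃ ρ, ρ = 1 / α - 1 := ⟨_, rfl⟩
  have ρ1 : ρ * α = 1 - α := by
    rw [hρ]
    field_simp
  have ρ0 : 0 < ρ := by
    rw [hρ, sub_pos, lt_div_iff₀ h0]
    linarith
  rw [e]
  refine upper_of h0 h1 (by positivity) (one_div_le_one_div_of_le two_pos hk2) hε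
    fun D η D0 η0 => ?_
  rw [← hρ]
  rcases hα with hα | hα
  · obtain ⟨v0, hv0⟩ := slice ρ0 D0.le zero_le_two hk (by
      rw [lt_div_iff₀ (by positivity)] at hα
      exact lt_of_mul_lt_mul_right (by linarith) h0.le) η0
    exact ⟨v0, fun ι _ _ m y Δ hv h => hv0 ι m n y Δ ⟨0, hn⟩ hv h fun i k => h.two i _ k⟩
  · have b1 : ρ * (k - 2) < 2 := by
      rw [lt_div_iff₀ (by linarith), ← ρ1] at hα
      exact lt_of_mul_lt_mul_right (by linarith) h0.le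
    obtain ⟨κ, κ0, κ1⟩ : ∃ κ : ℝ, 0 < κ ∧
        κ * ((ρ + 2 * n) ^ 2 * (k - 1)) ≤ ρ ^ 2 * (2 - ρ * (k - 2)) := by
      have : 0 < 2 - ρ * (k - 2) := by linarith
      have : (0 : ℝ) < k - 1 := by linarith
      exact ⟨ρ ^ 2 * (2 - ρ * (k - 2)) / ((ρ + 2 * n) ^ 2 * (k - 1)), by positivity,
        (div_mul_cancel₀ _ (by positivity)).le⟩
    obtain ⟨e, he⟩ : ∃ e, e = ρ ^ 2 / 2 + κ * (ρ + 2 * n) ^ 2 / (2 * ρ) := ⟨_, rfl⟩
    have e0 : 0 ≤ e := by rw [he]; positivity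
    have e1 : ρ * (2 * e) = ρ ^ 3 + κ * (ρ + 2 * n) ^ 2 := by
      rw [he]
      field_simp
    obtain ⟨v0, hv0⟩ := slice ρ0 D0.le e0 hk (by
      refine lt_of_mul_lt_mul_left (a := 2 * ρ) ?_ (by positivity)
      have : 2 * ρ * (e * (k - 2)) = (ρ ^ 3 + κ * (ρ + 2 * n) ^ 2) * (k - 2) := by rw [← e1]; ring
      have : 0 < κ * (ρ + 2 * n) ^ 2 := by positivity
      linarith) η0
    obtain ⟨v1, hv1⟩ := err_small ρ0.le D0.le κ0
    refine ⟨max v0 v1, fun ι _ _ m y Δ hv h => hv0 ι m n y Δ ⟨0, hn⟩ ((le_max_left _ _).trans hv) h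
      fun i k => ?_⟩
    have := h.entry ρ0 (hv1 ι m n y Δ ((le_max_right _ _).trans hv) h) i ⟨0, hn⟩ k
    rw [← e1] at this
    linarith [le_of_mul_le_mul_left this ρ0]

theorem upper_one {n : ℕ} {α ε : ℝ} (hn : 1 ≤ n) (h1 : α < 1) (hα : (n : ℝ) / (n + 2) < α)
    (hε : 0 < ε) :
    ∃ m0 : ℕ, ∀ m, m0 ≤ m → ∀ (v : ℕ) (X : Fin v → Matrix (Fin m) (Fin n) ℝ), Fr α X →
      (v : ℝ) ≤ (1 + ε) * m := by
  have h0 : 0 < α := lt_of_le_of_lt (by positivity) hα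
  have := upper_of (n := n) h0 h1 le_rfl (by norm_num) hε fun D η D0 η0 => by
    obtain ⟨v0, hv0⟩ := gap (ρ := 1 / α - 1) (n := n) (by
      rw [sub_pos, lt_div_iff₀ h0]
      linarith) D0.le (by
      rw [div_lt_iff₀ (by positivity)] at hα
      rw [mul_sub, mul_one_div, sub_lt_iff_lt_add, div_lt_iff₀ h0]
      linarith) η0
    exact ⟨v0, fun ι _ _ m y Δ hv h => by simpa using hv0 ι m y Δ ⟨0, hn⟩ hv h⟩
  simpa using this

end Pool.Agent.P.MP_c2263a_gt.Fix
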