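import Mathlib

/-! Powers of `1 - W` for a positive semidefinite matrix `W` with small rows. -/

set_option autoImplicit false

namespace Pool.Agent.P.MP_c2263a_gt.Fix

open Finset Matrix

variable {ι : Type} [Fintype ι] [DecidableEq ι]

/-- symmetric, positive semidefinite, absolute row sums at most one -/
structure Ok (W : Matrix ι ι ℝ) : Prop where
  sym : ∀ i j, W i j = W j i
  psd : ∀ y, 0 ≤ y ⬝ᵥ W *ᵥ y
  row : ∀ i, ∑ j, |W i j| ≤ 1

/-- sum of the absolute values -/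
def l1 (y : ι → ℝ) : ℝ := ∑ i, |y i|

omit [DecidableEq ι] in
theorem quad (W : Matrix ι ι ℝ) (x y : ι → ℝ) : x ⬝ᵥ W *ᵥ y = ∑ i, ∑ j, W i j * (x i * y j) := by
  simp only [dotProduct, mulVec, mul_sum]
  exact sum_congr rfl fun i _ => sum_congr rfl fun j _ => by ring

omit [DecidableEq ι] in
theorem schur {W : Matrix ι ι ℝ} {c : ℝ} (hs : ∀ i j, W i j = W j i) (hr : ∀ i, ∑ j, |W i j| ≤ c)
    (y : ι → ℝ) : y ⬝ᵥ W *ᵥ y ≤ c * (y ⬝ᵥ y) := by
  rw [quad]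
  calc _ ≤ ∑ i, ∑ j, (|W i j| * y i ^ 2 / 2 + |W j i| * y j ^ 2 / 2) := by
        refine sum_le_sum fun i _ => sum_le_sum fun j _ => (le_abs_self _).trans ?_
        rw [abs_mul, abs_mul, ← hs i j]
        have := mul_nonneg (abs_nonneg (W i j)) (sq_nonneg (|y i| - |y j|))
        rw [← sq_abs (y i), ← sq_abs (y j)]
        linarith
    _ = ∑ i, (∑ j, |W i j|) * y i ^ 2 := by
        simp only [sum_add_distrib]
        rw [sum_comm (f := fun i j => |W j i| * y j ^ 2 / 2), ← sum_add_distrib]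
        refine sum_congr rfl fun i _ => ?_
        rw [← sum_add_distrib, sum_mul]
        exact sum_congr rfl fun j _ => by ring
    _ ≤ _ := by
        rw [dotProduct, mul_sum]
        refine sum_le_sum fun i _ => ?_
        rw [← sq]
        exact mul_le_mul_of_nonneg_right (hr i) (sq_nonneg _)

omit [DecidableEq ι] in
theorem symm_dot {W : Matrix ι ι ℝ} (hs : ∀ i j, W i j = W j i) (x y : ι → ℝ) :
    x ⬝ᵥ W *ᵥ y = W *ᵥ x ⬝ᵥ y := by
  rw [dotProduct_comm (W *ᵥ x), quad, quad, sum_comm]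
  exact sum_congr rfl fun i _ => sum_congr rfl fun j _ => by rw [hs j i, mul_comm (x j)]

variable {W : Matrix ι ι ℝ}

omit [DecidableEq ι] in
theorem Ok.le (h : Ok W) (y : ι → ℝ) : y ⬝ᵥ W *ᵥ y ≤ y ⬝ᵥ y := by
  simpa using schur h.sym h.row y

omit [DecidableEq ι] in
theorem Ok.sq_le (h : Ok W) (y : ι → ℝ) : W *ᵥ y ⬝ᵥ W *ᵥ y ≤ y ⬝ᵥ W *ᵥ y := by
  have h1 := h.psd (y - W *ᵥ y)
  have h2 := h.le (W *ᵥ y)
  rw [mulVec_sub, sub_dotProduct, dotProduct_sub, dotProduct_sub, symm_dot h.sym y (W *ᵥ y)] at h1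
  linarith

theorem Ok.step1 (h : Ok W) (y : ι → ℝ) :
    (1 - W) *ᵥ y ⬝ᵥ (1 - W) *ᵥ y ≤ y ⬝ᵥ y - y ⬝ᵥ W *ᵥ y := by
  rw [sub_mulVec, one_mulVec, sub_dotProduct, dotProduct_sub, dotProduct_sub,
    dotProduct_comm (W *ᵥ y) y]
  linarith [h.sq_le y]

theorem Ok.step2 (h : Ok W) (y : ι → ℝ) :
    (1 - W) *ᵥ y ⬝ᵥ W *ᵥ ((1 - W) *ᵥ y) ≤ y ⬝ᵥ W *ᵥ y := by
  have h2 := h.le (W *ᵥ y)
  have h3 : 0 ≤ W *ᵥ y ⬝ᵥ W *ᵥ y := sum_nonneg fun i _ => mul_self_nonneg _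
  rw [sub_mulVec, one_mulVec, mulVec_sub, sub_dotProduct, dotProduct_sub, dotProduct_sub,
    symm_dot h.sym y (W *ᵥ y)]
  linarith

theorem pow_mulVec (A : Matrix ι ι ℝ) (t : ℕ) (y : ι → ℝ) :
    (A ^ (t + 1)) *ᵥ y = A *ᵥ ((A ^ t) *ᵥ y) := by rw [pow_succ', mulVec_mulVec]

theorem Ok.contr (h : Ok W) (t : ℕ) (y : ι → ℝ) :
    ((1 - W) ^ t) *ᵥ y ⬝ᵥ ((1 - W) ^ t) *ᵥ y ≤ y ⬝ᵥ y := by
  induction t with
  | zero => simp
  | succ t ih =>
    rw [pow_mulVec]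
    linarith [h.step1 (((1 - W) ^ t) *ᵥ y), h.psd (((1 - W) ^ t) *ᵥ y)]

theorem Ok.defect (h : Ok W) (t : ℕ) (y : ι → ℝ) :
    (t + 1) * (((1 - W) ^ t) *ᵥ y ⬝ᵥ W *ᵥ (((1 - W) ^ t) *ᵥ y)) ≤ y ⬝ᵥ y := by
  have key : ∀ t : ℕ, (t + 1) * (((1 - W) ^ t) *ᵥ y ⬝ᵥ W *ᵥ (((1 - W) ^ t) *ᵥ y)) +
      ((1 - W) ^ (t + 1)) *ᵥ y ⬝ᵥ ((1 - W) ^ (t + 1)) *ᵥ y ≤ y ⬝ᵥ y := by
    intro t
    induction t with
    | zero => simpa using by linarith [h.step1 y]
    | succ t ih =>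
      have h1 := h.step1 (((1 - W) ^ (t + 1)) *ᵥ y)
      have h2 := h.step2 (((1 - W) ^ t) *ᵥ y)
      rw [← pow_mulVec] at h1 h2
      have h3 := mul_le_mul_of_nonneg_left h2 (by positivity : (0 : ℝ) ≤ t + 1)
      push_cast
      linarith
  have h3 : 0 ≤ ((1 - W) ^ (t + 1)) *ᵥ y ⬝ᵥ ((1 - W) ^ (t + 1)) *ᵥ y :=
    sum_nonneg fun i _ => mul_self_nonneg _
  linarith [key t]

theorem Ok.l1_le (h : Ok W) (t : ℕ) (y : ι → ℝ) : l1 (((1 - W) ^ t) *ᵥ y) ≤ 2 ^ t * l1 y := by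
  induction t with
  | zero => simp
  | succ t ih =>
    rw [pow_mulVec, pow_succ', mul_assoc]
    refine le_trans ?_ (mul_le_mul_of_nonneg_left ih zero_le_two)
    generalize ((1 - W) ^ t) *ᵥ y = z
    rw [sub_mulVec, one_mulVec, two_mul]
    unfold l1
    refine (sum_le_sum fun i _ => abs_sub _ _).trans ?_
    rw [sum_add_distrib]
    refine add_le_add le_rfl ?_
    calc _ ≤ ∑ i, ∑ j, |W j i| * |z j| := by
          refine sum_le_sum fun i _ => (abs_sum_le_sum_abs _ _).trans_eq ?_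
          exact sum_congr rfl fun j _ => by rw [abs_mul, h.sym]
      _ = ∑ j, (∑ i, |W j i|) * |z j| := by
          rw [sum_comm]
          exact sum_congr rfl fun j _ => (sum_mul _ _ _).symm
      _ ≤ _ := sum_le_sum fun j _ => mul_le_of_le_one_left (abs_nonneg _) (h.row j)

theorem Ok.pow_sym (h : Ok W) (t : ℕ) (i j : ι) : ((1 - W) ^ t) i j = ((1 - W) ^ t) j i := by
  have h1 : Wᵀ = W := Matrix.ext fun i j => h.sym j i
  have h2 : ((1 - W) ^ t)ᵀ = (1 - W) ^ t := by rw [transpose_pow, transpose_sub, transpose_one, h1]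
  exact congrFun (congrFun h2 j) i

theorem Ok.two (h : Ok W) (t : ℕ) (x y : ι → ℝ) :
    x ⬝ᵥ ((1 - W) ^ (2 * t)) *ᵥ y = ((1 - W) ^ t) *ᵥ x ⬝ᵥ ((1 - W) ^ t) *ᵥ y := by
  rw [two_mul, pow_add, ← mulVec_mulVec, symm_dot (h.pow_sym t)]

theorem Ok.comm (h : Ok W) (t : ℕ) (x : ι → ℝ) :
    x ⬝ᵥ W *ᵥ (((1 - W) ^ (2 * t)) *ᵥ x) =
      ((1 - W) ^ t) *ᵥ x ⬝ᵥ W *ᵥ (((1 - W) ^ t) *ᵥ x) := by
  have hc : Commute W ((1 - W) ^ t) :=
    ((Commute.one_right W).sub_right (Commute.refl W)).pow_right t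
  rw [two_mul, pow_add, mulVec_mulVec, ← Matrix.mul_assoc, hc.eq, Matrix.mul_assoc,
    ← mulVec_mulVec, symm_dot (h.pow_sym t), ← mulVec_mulVec]

theorem Ok.trace_ge (h : Ok W) (t : ℕ) :
    (Fintype.card ι : ℝ) - W.rank ≤ ∑ i, ((1 - W) ^ (2 * t)) i i := by
  obtain ⟨Q, hQ⟩ : ∃ Q : Matrix ι ι ℝ, 1 - (1 - W) ^ (2 * t) = W * Q := by
    generalize 2 * t = n
    induction n with
    | zero => exact ⟨0, by simp⟩
    | succ n ih =>
      obtain ⟨Q, hQ⟩ := ih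
      refine ⟨Q * (1 - W) + 1, ?_⟩
      rw [Matrix.mul_add, ← Matrix.mul_assoc, ← hQ, pow_succ]
      noncomm_ring
  have hH : (1 - (1 - W) ^ (2 * t)).IsHermitian := by
    refine isHermitian_one.sub (Matrix.ext fun i j => ?_)
    simpa using h.pow_sym _ j i
  have h1 := hH.trace_eq_sum_eigenvalues
  have h2 := hH.rank_eq_card_non_zero_eigs
  have h3 : (1 - (1 - W) ^ (2 * t)).rank ≤ W.rank := hQ ▸ rank_mul_le_left _ _
  have h4 : ∀ i, hH.eigenvalues i ≤ 1 := fun i => by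
    rw [hH.eigenvalues_eq]
    have e : (hH.eigenvectorBasis i).ofLp ⬝ᵥ (hH.eigenvectorBasis i).ofLp = 1 := by
      have := hH.eigenvectorBasis.orthonormal.1 i
      rw [EuclideanSpace.norm_eq, Real.sqrt_eq_one] at this
      simpa [dotProduct, sq] using this
    simp only [star_trivial, RCLike.re_to_real]
    rw [sub_mulVec, one_mulVec, dotProduct_sub, e, h.two]
    exact sub_le_self _ (sum_nonneg fun i _ => mul_self_nonneg _)
  have h5 : ∑ i, hH.eigenvalues i ≤ (1 - (1 - W) ^ (2 * t)).rank := by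
    rw [h2, Fintype.card_subtype, card_eq_sum_ones, sum_filter]
    push_cast
    refine sum_le_sum fun i _ => ?_
    split_ifs with h0
    · exact h4 i
    · exact (not_not.1 h0).le
  have h6 : (1 - (1 - W) ^ (2 * t)).trace =
      Fintype.card ι - ∑ i, ((1 - W) ^ (2 * t)) i i := by
    rw [trace_sub, trace_one]
    rfl
  have h7 : ((1 - (1 - W) ^ (2 * t)).rank : ℝ) ≤ W.rank := by exact_mod_cast h3
  simp only [RCLike.ofReal_real_eq_id, id] at h1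
  linarith

omit [DecidableEq ι] in
theorem Ok.gain (h : Ok W) {E : ι → ι → ℝ} {κ : ℝ} (hκ : 0 ≤ κ) (hE : ∀ i j, 0 ≤ E i j)
    (hW : ∀ i j, i ≠ j → W i j + E i j ≤ κ) (y : ι → ℝ) {i j : ι} (hij : i ≠ j) :
    E i j * (|y i| * |y j| - y i * y j) ≤ y ⬝ᵥ W *ᵥ y + 2 * κ * l1 y ^ 2 := by
  classical
  have h0 : ∀ a b, 0 ≤ |y a| * |y b| - y a * y b := fun a b => by
    rw [← abs_mul]
    exact sub_nonneg.2 (le_abs_self _)
  have h1 := h.psd fun a => |y a|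
  have h2 : ∑ a, ∑ b, (if a = b then 0 else E a b * (|y a| * |y b| - y a * y b)) ≤
      ∑ a, ∑ b, (W a b * (y a * y b) - W a b * (|y a| * |y b|) + 2 * κ * (|y a| * |y b|)) := by
    refine sum_le_sum fun a _ => sum_le_sum fun b _ => ?_
    split_ifs with e
    · subst e
      rw [abs_mul_abs_self]
      have := mul_nonneg hκ (mul_self_nonneg (y a))
      linarith
    · have h3 := mul_le_mul_of_nonneg_right (hW a b e) (h0 a b)
      have h4 : |y a| * |y b| - y a * y b ≤ 2 * (|y a| * |y b|) := by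
        rw [← abs_mul]
        linarith [neg_abs_le (y a * y b)]
      have h5 := mul_le_mul_of_nonneg_left h4 hκ
      linarith
  have h3 : E i j * (|y i| * |y j| - y i * y j) ≤
      ∑ a, ∑ b, (if a = b then 0 else E a b * (|y a| * |y b| - y a * y b)) := by
    have nn : ∀ a b, 0 ≤ (if a = b then 0 else E a b * (|y a| * |y b| - y a * y b)) := by
      intro a b
      split_ifs
      · exact le_rfl
      · exact mul_nonneg (hE a b) (h0 a b)
    refine le_trans ?_ (single_le_sum (fun a _ => sum_nonneg fun b _ => nn a b) (mem_univ i))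
    refine le_trans ?_ (single_le_sum (fun b _ => nn i b) (mem_univ j))
    rw [if_neg hij]
  simp only [sum_add_distrib, sum_sub_distrib, ← mul_sum, ← sum_mul] at h2
  rw [quad] at h1 ⊢
  unfold l1
  rw [sq]
  linarith

end Pool.Agent.P.MP_c2263a_gt.Fix
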